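import Pool.Agent.V11118.KZ.Fin

/-!
# Combinatorics of the building set, graded pieces and the non-real zero
-/

namespace Pool.Agent.V11118.KZ.Data

open MvPolynomial Finset Pool.Agent.V11118.KZ

noncomputable section

/-- the sets of the building set -/
def GG (v : Fin 18) : Set (Fin 7) := {e | (gm v).testBit e = true}

theorem chk_inj : ∀ u v : Fin 18, (∀ e : Fin 7, (gm u).testBit e = (gm v).testBit e) → u = v := by
  decide +kernel

theorem chk_union : ∀ u v : Fin 18, gm u &&& gm v ≠ 0 → ∃ w : Fin 18, gm w = gm u ||| gm v := by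
  decide +kernel

theorem chk_single : ∀ e : Fin 7, ∃ w : Fin 18, gm w = 2 ^ (e : ℕ) := by decide +kernel

theorem chk_ne : ∀ v : Fin 18, ∃ e : Fin 7, (gm v).testBit e = true := by decide +kernel

theorem chk_lt : ∀ v : Fin 18, gm v < 2 ^ 7 := by decide +kernel

theorem chk_nadj : ∀ u v : Fin 18, adjB (gm u) (gm v) = false →
    (∃ e : Fin 7, (gm u).testBit e = true ∧ (gm v).testBit e = false) ∧
    (∃ e : Fin 7, (gm v).testBit e = true ∧ (gm u).testBit e = false) ∧
    ∃ w : Fin 18, gm w = gm u ||| gm v := by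
  decide +kernel

theorem GG_inj : Function.Injective GG := by
  intro u v h
  apply chk_inj
  intro e
  have : e ∈ GG u ↔ e ∈ GG v := by rw [h]
  have h' : (gm u).testBit e = true ↔ (gm v).testBit e = true := this
  cases h1 : (gm u).testBit e <;> cases h2 : (gm v).testBit e <;> simp_all

theorem GG_union {u v : Fin 18} (h : (GG u ∩ GG v).Nonempty) : ∃ w, GG w = GG u ∪ GG v := by
  obtain ⟨e, h1, h2⟩ := h
  have h0 : gm u &&& gm v ≠ 0 := by
    intro h0
    have : (gm u &&& gm v).testBit e = true := by
      rw [Nat.testBit_and]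
      rw [show (gm u).testBit e = true from h1, show (gm v).testBit e = true from h2]
      rfl
    rw [h0] at this
    simp at this
  obtain ⟨w, hw⟩ := chk_union u v h0
  refine ⟨w, ?_⟩
  ext x
  show (gm w).testBit x = true ↔ (gm u).testBit x = true ∨ (gm v).testBit x = true
  rw [hw, Nat.testBit_or, Bool.or_eq_true]

theorem GG_single (e : Fin 7) : ∃ w, GG w = {e} := by
  obtain ⟨w, hw⟩ := chk_single e
  refine ⟨w, ?_⟩
  ext x
  show (gm w).testBit x = true ↔ x = e
  rw [hw, Nat.testBit_two_pow, decide_eq_true_eq, Fin.ext_iff, eq_comm]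

theorem GG_nonempty (v : Fin 18) : (GG v).Nonempty := chk_ne v

/-! ### nested sets -/

/-- two masks are disjoint with union outside the building set -/
def far (a b : ℕ) : Bool := (a &&& b == 0) && !(gl.contains (a ||| b))

/-- union of masks -/
def orA (l : List ℕ) : ℕ := l.foldr (· ||| ·) 0

/-- backtracking over the families of pairwise far sets -/
def chkA : List ℕ → List ℕ → Bool
  | ch, [] => decide (ch.length < 2) || !(gl.contains (orA ch))
  | ch, v :: r => chkA ch r && (!(ch.all fun u => far u v) || chkA (v :: ch) r)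

theorem chk_A : chkA [] gl = true := by decide +kernel

theorem chkA_ok (r : List ℕ) : ∀ (ch : List ℕ), chkA ch r = true → ∀ T : List ℕ, T.Sublist r →
    (∀ u ∈ ch, ∀ v ∈ T, far u v = true) → T.Pairwise (fun u v => far u v = true) →
    2 ≤ (ch ++ T).length → orA (T.reverse ++ ch) ∉ gl := by
  induction r with
  | nil =>
    intro ch h T hT _ _ hlen
    have hT0 : T = [] := List.sublist_nil.1 hT
    subst hT0
    unfold chkA at h
    simp only [Bool.or_eq_true, decide_eq_true_eq, Bool.not_eq_true'] at h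
    rcases h with h | h
    · simp at hlen
      omega
    · simpa using h
  | cons v r ih =>
    intro ch h T hT hch hp hlen
    unfold chkA at h
    simp only [Bool.and_eq_true, Bool.or_eq_true, Bool.not_eq_true'] at h
    obtain ⟨h1, h2⟩ := h
    cases hT with
    | cons _ hT' => exact ih ch h1 T hT' hch hp hlen
    | cons_cons _ hT' =>
      rename_i T'
      rcases h2 with h2 | h2
      · exfalso
        have : (ch.all fun u => far u v) = true := by
          rw [List.all_eq_true]
          intro u hu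
          exact hch u hu v (by simp)
        rw [this] at h2
        exact absurd h2 (by simp)
      · have hp' := List.pairwise_cons.1 hp
        have := ih (v :: ch) h2 T' hT' (by
          intro u hu w hw
          rcases List.mem_cons.1 hu with rfl | hu
          · exact hp'.1 w hw
          · exact hch u hu w (by simp [hw])) hp'.2 (by
          simp only [List.length_append, List.length_cons] at hlen ⊢
          omega)
        rw [List.reverse_cons, List.append_assoc]
        exact this

theorem testBit_orA (l : List ℕ) (k : ℕ) :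
    (orA l).testBit k = true ↔ ∃ a ∈ l, a.testBit k = true := by
  induction l with
  | nil => simp [orA]
  | cons a l ih =>
    have : orA (a :: l) = a ||| orA l := rfl
    rw [this, Nat.testBit_or, Bool.or_eq_true, ih]
    simp

theorem gl_eq : gl = (List.finRange 18).map fun v : Fin 18 => gm v := by decide +kernel

/-- a family of pairwise compatible incomparable sets has union outside the building set -/
theorem union_notMem (T : Finset (Fin 18)) (h2 : 2 ≤ T.card)
    (hadj : ∀ u ∈ T, ∀ v ∈ T, adj u v)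
    (hinc : ∀ u ∈ T, ∀ v ∈ T, u ≠ v → ¬ GG u ⊆ GG v) :
    (⋃ v ∈ T, GG v) ∉ Set.range GG := by
  rintro ⟨x, hx⟩
  let L : List (Fin 18) := (List.finRange 18).filter (· ∈ T)
  have hfar : ∀ u ∈ T, ∀ v ∈ T, u ≠ v → far (gm u) (gm v) = true := by
    intro u hu v hv huv
    have h := hadj u hu v hv
    unfold adj adjB at h
    simp only [Bool.or_eq_true, beq_iff_eq] at h
    rcases h with (h | h) | h
    · exfalso
      apply hinc u hu v hv huv
      intro e he
      have he' : (gm u).testBit e = true := he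
      rw [← h, Nat.testBit_and, Bool.and_eq_true] at he'
      exact he'.2
    · exfalso
      apply hinc v hv u hu (Ne.symm huv)
      intro e he
      have he' : (gm v).testBit e = true := he
      rw [← h, Nat.testBit_and, Bool.and_eq_true] at he'
      exact he'.1
    · exact h
  have hLmem : ∀ v, v ∈ L ↔ v ∈ T := by
    intro v
    simp [L]
  have hLnd : L.Nodup := (List.nodup_finRange 18).filter _
  have hLlen : L.length = T.card := by
    have : L.toFinset = T := by
      ext v
      rw [List.mem_toFinset, hLmem]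
    rw [← this, List.toFinset_card_of_nodup hLnd]
  have hsub : (L.map fun v : Fin 18 => gm v).Sublist gl := by
    rw [gl_eq]
    exact (List.filter_sublist).map _
  have hpw : (L.map fun v : Fin 18 => gm v).Pairwise (fun u v => far u v = true) := by
    rw [List.pairwise_map]
    refine List.Pairwise.imp_of_mem ?_ (List.nodup_iff_pairwise_ne.1 hLnd)
    intro u v hu hv huv
    exact hfar u ((hLmem u).1 hu) v ((hLmem v).1 hv) huv
  have h := chkA_ok gl [] chk_A _ hsub (fun u hu => absurd hu (by simp)) hpw (by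
    simp only [List.nil_append, List.length_map, hLlen]
    exact h2)
  apply h
  have : orA ((L.map fun v : Fin 18 => gm v).reverse ++ []) = gm x := by
    apply Nat.eq_of_testBit_eq
    intro k
    have key : (orA ((L.map fun v : Fin 18 => gm v).reverse ++ [])).testBit k = true ↔
        (gm x).testBit k = true := by
      rw [testBit_orA]
      rcases lt_or_ge k 7 with hk | hk
      · have hx' : (⟨k, hk⟩ : Fin 7) ∈ GG x ↔ (⟨k, hk⟩ : Fin 7) ∈ ⋃ v ∈ T, GG v := by rw [hx]
        simp only [Set.mem_iUnion, exists_prop] at hx'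
        have hx'' : (gm x).testBit k = true ↔ ∃ v ∈ T, (gm v).testBit k = true := hx'
        rw [hx'']
        simp only [List.append_nil, List.mem_reverse, List.mem_map]
        constructor
        · rintro ⟨a, ⟨v, hv, rfl⟩, ha⟩
          exact ⟨v, (hLmem v).1 hv, ha⟩
        · rintro ⟨v, hv, ha⟩
          exact ⟨gm v, ⟨v, (hLmem v).2 hv, rfl⟩, ha⟩
      · have hz : ∀ v : Fin 18, (gm v).testBit k = false := fun v =>
          Nat.testBit_lt_two_pow (lt_of_lt_of_le (chk_lt v) (Nat.pow_le_pow_right (by norm_num) hk))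
        constructor
        · rintro ⟨a, ha, hak⟩
          simp only [List.append_nil, List.mem_reverse, List.mem_map] at ha
          obtain ⟨v, _, rfl⟩ := ha
          rw [hz v] at hak
          exact absurd hak (by simp)
        · intro hak
          rw [hz x] at hak
          exact absurd hak (by simp)
    cases h1 : (orA ((L.map fun v : Fin 18 => gm v).reverse ++ [])).testBit k <;>
      cases h2 : (gm x).testBit k <;> simp_all
  rw [this, gl_eq]
  exact List.mem_map.2 ⟨x, List.mem_finRange x, rfl⟩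

/-! ### graded pieces -/

theorem finrank_map_mk {I : Ideal (MvPolynomial (Fin 18) ℚ)} (hI : I = J adj ee Set.univ) (k : ℕ) :
    Module.finrank ℚ ((E (Fin 18) k).map (Ideal.Quotient.mkₐ ℚ I).toLinearMap) =
      hf [1, 11, 39, 59, 39, 11, 1] k := by
  rw [← qd_full]
  have hfin := finE (V := Fin 18) k
  have h1 := LinearMap.finrank_range_add_finrank_ker
    ((Ideal.Quotient.mkₐ ℚ I).toLinearMap.domRestrict (E (Fin 18) k))
  rw [LinearMap.range_domRestrict, LinearMap.ker_domRestrict] at h1
  have h2 : Module.finrank ℚ (Submodule.comap (E (Fin 18) k).subtype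
      (LinearMap.ker (Ideal.Quotient.mkₐ ℚ I).toLinearMap)) =
        Module.finrank ℚ (JE adj ee Set.univ k) := by
    have h3 : Submodule.comap (E (Fin 18) k).subtype
        (LinearMap.ker (Ideal.Quotient.mkₐ ℚ I).toLinearMap) =
        Submodule.comap (E (Fin 18) k).subtype (JE adj ee Set.univ k) := by
      ext x
      rw [Submodule.mem_comap, Submodule.mem_comap, LinearMap.mem_ker]
      constructor
      · intro h
        have h' : Ideal.Quotient.mk I x.1 = 0 := h
        rw [Ideal.Quotient.eq_zero_iff_mem, hI] at h'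
        exact ⟨h', x.2⟩
      · rintro ⟨h', _⟩
        have h'' : x.1 ∈ I := by
          rw [hI]
          exact h'
        exact Ideal.Quotient.eq_zero_iff_mem.2 h''
    rw [h3]
    exact (Submodule.comapSubtypeEquivOfLe (inf_le_right)).finrank_eq
  rw [h2] at h1
  have h4 := qd_add adj ee Set.univ k
  omega

/-! ### a non-real zero -/

theorem exists_nonreal : ∃ z : ℂ, z.im ≠ 0 ∧
    1 + 11 * z + 39 * z ^ 2 + 59 * z ^ 3 + 39 * z ^ 4 + 11 * z ^ 5 + z ^ 6 = 0 := by
  obtain ⟨r, ⟨hr1, hr2⟩, hr⟩ : ∃ r ∈ Set.Icc (-0.25 : ℝ) (-0.24), r ^ 3 + 4 * r ^ 2 + 5 * r + 1 = 0 := by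
    have hc : ContinuousOn (fun r : ℝ => r ^ 3 + 4 * r ^ 2 + 5 * r + 1) (Set.Icc (-0.25) (-0.24)) := by
      fun_prop
    have := intermediate_value_Icc (by norm_num) hc
    have h0 : (0 : ℝ) ∈ Set.Icc ((fun r : ℝ => r ^ 3 + 4 * r ^ 2 + 5 * r + 1) (-0.25))
        ((fun r : ℝ => r ^ 3 + 4 * r ^ 2 + 5 * r + 1) (-0.24)) := by
      constructor <;> norm_num
    obtain ⟨r, hr, hr'⟩ := this h0
    exact ⟨r, hr, hr'⟩
  have hD : 0 < 4 + 8 * r + 3 * r ^ 2 := by nlinarith
  obtain ⟨t, ht0, ht⟩ : ∃ t : ℝ, 0 < t ∧ t ^ 2 = 4 + 8 * r + 3 * r ^ 2 :=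
    ⟨Real.sqrt (4 + 8 * r + 3 * r ^ 2), Real.sqrt_pos.2 hD, Real.sq_sqrt hD.le⟩
  let y : ℂ := ⟨-(4 + r) / 2, t / 2⟩
  have hy : y ^ 3 + 4 * y ^ 2 + 5 * y + 1 = 0 := by
    have hq : y ^ 2 + (4 + r) * y + (5 + 4 * r + r ^ 2) = 0 := by
      apply Complex.ext
      · simp [y, pow_two]
        nlinarith
      · simp [y, pow_two]
        ring
    have hr' : (r : ℂ) ^ 3 + 4 * r ^ 2 + 5 * r + 1 = 0 := by exact_mod_cast hr
    linear_combination (y - r) * hq + hr'
  have hyim : y.im ≠ 0 := by
    simp only [y]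
    positivity
  have hy0 : y ≠ 0 := by
    intro h
    rw [h] at hyim
    simp at hyim
  obtain ⟨s, hs⟩ : ∃ s : ℂ, s ^ 2 = 1 - 4 * y := IsAlgClosed.exists_pow_nat_eq _ (by norm_num)
  let z : ℂ := ((1 - 2 * y) + s) / (2 * y)
  have hz : z = y * (1 + z) ^ 2 := by
    have h2 : 2 * y * z = (1 - 2 * y) + s := by
      simp only [z]
      field_simp
    have h3 : 4 * y * (z - y * (1 + z) ^ 2) = 0 := by
      linear_combination (-(2 * y * z) + (1 - 2 * y) - s) * h2 + (-1) * hs
    have h4 : (4 : ℂ) * y ≠ 0 := by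
      simp [hy0]
    have := (mul_eq_zero.1 h3).resolve_left h4
    exact sub_eq_zero.1 this
  refine ⟨z, ?_, ?_⟩
  · intro him
    have hzr : z = (z.re : ℂ) := by
      apply Complex.ext <;> simp [him]
    have h1 : (1 + z) ≠ 0 := by
      intro h
      rw [h] at hz
      simp at hz
      rw [hz] at h
      simp at h
    have h2 : y = z / (1 + z) ^ 2 := by
      rw [eq_div_iff (pow_ne_zero 2 h1)]
      exact hz.symm
    apply hyim
    rw [h2, hzr]
    have : ((z.re : ℂ) / (1 + (z.re : ℂ)) ^ 2) = ((z.re / (1 + z.re) ^ 2 : ℝ) : ℂ) := by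
      push_cast
      ring
    rw [this]
    exact Complex.ofReal_im _
  · have h5 : (1 + 11 * z + 39 * z ^ 2 + 59 * z ^ 3 + 39 * z ^ 4 + 11 * z ^ 5 + z ^ 6) =
        (1 + z) ^ 6 + 5 * z * (1 + z) ^ 4 + 4 * z ^ 2 * (1 + z) ^ 2 + z ^ 3 := by ring
    rw [h5]
    have h6 : (1 + z) ^ 6 + 5 * z * (1 + z) ^ 4 + 4 * z ^ 2 * (1 + z) ^ 2 + z ^ 3 =
        (1 + z) ^ 6 + 5 * (y * (1 + z) ^ 2) * (1 + z) ^ 4 +
          4 * (y * (1 + z) ^ 2) ^ 2 * (1 + z) ^ 2 + (y * (1 + z) ^ 2) ^ 3 := by
      rw [← hz]
    rw [h6]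
    linear_combination (1 + z) ^ 6 * hy

end

end Pool.Agent.V11118.KZ.Data
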