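import Pool.Agent.V11118.KZ.Data

/-!
# Kernel checks of the explicit data
-/

namespace Pool.Agent.V11118.KZ.Data

/-- mask of a vertex -/
def gm (v : ℕ) : ℕ := gl.getD v 0

/-- star of a vertex -/
def stm (v : ℕ) : ℕ := stl.getD v 0

/-- compatibility of two masks -/
def adjB (a b : ℕ) : Bool :=
  (a &&& b == a) || (a &&& b == b) || ((a &&& b == 0) && !(gl.contains (a ||| b)))

/-- generic values of the linear forms -/
def cI (i : ℕ) : ℤ := if i < 7 then i + 1 else 0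

/-- coordinates of the point of a facet -/
def pv (t : List (ℕ × ℕ × ℕ)) (u : ℕ) : ℤ :=
  (t.map fun x => if x.1 = u then cI x.2.1 - cI x.2.2 else 0).sum

/-- mask of a facet -/
def mkF (t : List (ℕ × ℕ × ℕ)) : ℕ := (t.map fun x => 2 ^ x.1).sum

/-- table access -/
def tE (c : ℕ) : ℕ × ℕ × ℕ × ℕ × List ℕ := TL.getD c (0, 0, 0, 0, [])

/-- sum of coefficient lists -/
def addS : List ℕ → List ℕ → List ℕ
  | [], b => b
  | a, [] => a
  | x :: a, y :: b => (x + y) :: addS a b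

/-- the check of a table entry -/
def chkT (i : ℕ) : Bool :=
  let x := tE i
  if x.2.1 = 18 then decide (x.2.2.1 < 161) && (mkF (FL.getD x.2.2.1 []) == x.1) &&
    (x.2.2.2.2 == [1])
  else decide (x.2.1 < 18) && decide (x.2.2.1 < i) && decide (x.2.2.2.1 < i) &&
    x.1.testBit x.2.1 && ((tE x.2.2.1).1 == x.1 ^^^ 2 ^ x.2.1) &&
    ((tE x.2.2.2.1).1 == x.1 &&& stm x.2.1) &&
    (x.2.2.2.2 == addS (tE x.2.2.1).2.2.2.2 (0 :: (tE x.2.2.2.1).2.2.2.2))

/-- the check of a path -/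
def chkP : ℕ → List (ℕ × ℕ × ℕ × ℕ) → ℕ → Bool
  | c, [], tgt => c == tgt
  | c, x :: p, tgt =>
    decide (x.1 < 18) && decide (x.2.1 < 416) && decide (x.2.2.1 < 416) &&
    (tE c).1.testBit x.1 && ((tE x.2.1).1 == (tE c).1 ^^^ 2 ^ x.1) &&
    ((tE x.2.2.1).1 == (tE c).1 &&& stm x.1) &&
    ((tE c).2.2.2.2 == addS (tE x.2.1).2.2.2.2 (0 :: (tE x.2.2.1).2.2.2.2)) &&
    ((decide (x.2.2.2 = 99) && decide ((tE x.2.2.1).2.1 = 18)) ||
      (decide (x.2.2.2 < 46) && ((WL.getD x.2.2.2 (0, [])).1 == x.2.2.1))) &&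
    chkP x.2.1 p tgt

theorem chk_T : ∀ i < 416, chkT i = true := by decide +kernel

theorem chk_P : ∀ x ∈ WL, x.1 < 416 ∧ chkP 415 x.2 x.1 = true := by decide +kernel

theorem chk_len : TL.length = 416 ∧ FL.length = 161 ∧ WL.length = 46 := by decide +kernel

theorem chk_full : (tE 415).1 = 262143 := by decide +kernel

theorem chk_h415 : (tE 415).2.2.2.2 = [1, 11, 39, 59, 39, 11, 1] := by decide +kernel

theorem chk_W0 : (tE (WL.getD 0 (0, [])).1).2.1 = 18 ∧ (WL.getD 0 (0, [])).1 < 416 := by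
  decide +kernel

theorem chk_st : ∀ v u : Fin 18, (stm v).testBit u = adjB (gm v) (gm u) := by decide +kernel

theorem chk_hlen : ∀ x ∈ TL, x.2.2.2.2.length ≤ 7 := by decide +kernel

/-- facets -/
theorem chk_F1 : ∀ t ∈ FL, ∀ v : Fin 18, (mkF t).testBit v = true ↔ pv t v ≠ 0 := by
  decide +kernel

theorem chk_F2 : ∀ t ∈ FL, ∀ i : Fin 7,
    ((List.finRange 18).map fun v : Fin 18 => if (gm v).testBit i then pv t v else 0).sum = cI i := by
  decide +kernel

theorem chk_F3 : ∀ t ∈ FL, ∀ v : Fin 18, (mkF t).testBit v = true →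
    mkF t &&& stm v = mkF t := by
  decide +kernel

theorem chk_F4 : ∀ t ∈ FL, ((List.finRange 18).filter fun v : Fin 18 =>
    decide ((mkF t).testBit v = true)).length = 7 := by
  decide +kernel

theorem chk_F5 : ∀ t ∈ FL, ∀ v : Fin 18, (mkF t).testBit v = true → ∃ x ∈ t, x.1 = v := by
  decide +kernel

theorem chk_F6 : ∀ t ∈ FL, ∀ x ∈ t, x.2.1 < 7 ∧ x.2.2 < 8 ∧ ∀ u : Fin 18,
    (mkF t).testBit u = true → ((gm u).testBit x.2.1).toNat =
      ((gm u).testBit x.2.2).toNat + (if x.1 = u then 1 else 0) := by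
  decide +kernel

theorem chk_F7 : (FL.map mkF).Nodup := by decide +kernel

theorem chk_g7 : ∀ v : Fin 18, (gm v).testBit 7 = false := by decide +kernel

theorem chk_cnt : ∀ c < 416, ((List.finRange 161).filter fun t : Fin 161 =>
    decide (mkF (FL.getD t []) &&& (tE c).1 = mkF (FL.getD t []))).length =
      (tE c).2.2.2.2.sum := by
  decide +kernel

end Pool.Agent.V11118.KZ.Data
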