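import Mathlib

/-!
# Koszul filtrations give linear free resolutions

Vectors are functions `ℕ → A`, a finite sequence of vectors is `n : ℕ → ℕ → A` with a length `t`.
-/

namespace Pool.Agent.V11118.KZ

open Finset

variable {A : Type*} [CommRing A]

/-- linear combination of the first `t` vectors -/
def lc (n : ℕ → ℕ → A) (t : ℕ) (c : ℕ → A) : ℕ → A := fun q => ∑ j ∈ range t, c j * n j q

/-- being in the span of the first `t` vectors -/
def InSpan (n : ℕ → ℕ → A) (t : ℕ) (x : ℕ → A) : Prop := ∃ c : ℕ → A, ∀ q, x q = lc n t c q

/-- `F` is a Koszul filtration with respect to the linear forms `A1` -/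
def KFilt (A1 : Set A) (F : Set (Set A)) : Prop :=
  ∀ I ∈ F, ∃ (m : ℕ) (l : ℕ → A), (∀ k < m, l k ∈ A1) ∧
    (∀ a, a ∈ I ↔ ∃ c : ℕ → A, a = ∑ k ∈ range m, c k * l k) ∧
    ∀ k < m, ∃ I' ∈ F, ∀ a, a ∈ I' ↔ ∃ c : ℕ → A, a * l k = ∑ i ∈ range k, c i * l i

/-- sequences with linear entries and colon ideals in `F` -/
def FSeq (A1 : Set A) (F : Set (Set A)) (n : ℕ → ℕ → A) (t : ℕ) : Prop :=
  (∀ j < t, ∀ q, n j q ∈ A1) ∧
    ∀ j < t, ∃ I ∈ F, ∀ a, a ∈ I ↔ InSpan n j (fun q => a * n j q)

theorem lc_congr {n n' : ℕ → ℕ → A} {t : ℕ} (h : ∀ j < t, n j = n' j) (c : ℕ → A) :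
    lc n t c = lc n' t c := by
  funext q
  unfold lc
  apply sum_congr rfl
  intro j hj
  rw [h j (mem_range.1 hj)]

theorem inSpan_congr {n n' : ℕ → ℕ → A} {t : ℕ} (h : ∀ j < t, n j = n' j) (x : ℕ → A) :
    InSpan n t x ↔ InSpan n' t x := by
  unfold InSpan
  simp only [lc_congr h]

theorem lc_single (n : ℕ → ℕ → A) {t k : ℕ} (hk : k < t) :
    lc n t (fun j => if j = k then 1 else 0) = n k := by
  funext q
  unfold lc
  rw [sum_eq_single k]
  · simp
  · intro b _ hb
    simp [hb]
  · intro h
    exact absurd (mem_range.2 hk) h

theorem syz (A1 : Set A) (F : Set (Set A)) (hF : KFilt A1 F)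
    (h0 : (0 : A) ∈ A1) (hneg : ∀ a ∈ A1, -a ∈ A1)
    (p1 p2 : A →+ A) (h1 : ∀ a, p1 a ∈ A1) (h2 : ∀ a, ∀ l ∈ A1, p2 (a * l) = p1 a * l)
    (h3 : ∀ l ∈ A1, p1 l = l) (t : ℕ) :
    ∀ n : ℕ → ℕ → A, FSeq A1 F n t → ∃ (t' : ℕ) (n' : ℕ → ℕ → A), FSeq A1 F n' t' ∧
      (∀ j < t', ∀ q, t ≤ q → n' j q = 0) ∧
      ∀ c : ℕ → A, (∀ q, t ≤ q → c q = 0) → ((∀ q, lc n t c q = 0) ↔ InSpan n' t' c) := by
  induction t with
  | zero =>
    intro n _
    refine ⟨0, fun _ _ => 0, ⟨fun j hj => absurd hj (Nat.not_lt_zero j),
      fun j hj => absurd hj (Nat.not_lt_zero j)⟩, fun j hj => absurd hj (Nat.not_lt_zero j), ?_⟩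
    intro c hc
    constructor
    · intro _
      refine ⟨fun _ => 0, fun q => ?_⟩
      simp [lc, hc q (Nat.zero_le q)]
    · intro _ q
      simp [lc]
  | succ t ih =>
    intro n hn
    obtain ⟨t', n', hn', hsup, hspan⟩ := ih n
      ⟨fun j hj => hn.1 j (by omega), fun j hj => hn.2 j (by omega)⟩
    obtain ⟨I, hI, hcol⟩ := hn.2 t (Nat.lt_succ_self t)
    obtain ⟨m, l, hl1, hlI, hlcol⟩ := hF I hI
    have hlk : ∀ k < m, l k ∈ I := by
      intro k hk
      rw [hlI]
      refine ⟨fun j => if j = k then 1 else 0, ?_⟩
      rw [sum_eq_single k]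
      · simp
      · intro b _ hb
        simp [hb]
      · intro h
        exact absurd (mem_range.2 hk) h
    have hlin : ∀ k < m, ∃ a : ℕ → A, (∀ j, a j ∈ A1) ∧ ∀ q, l k * n t q = lc n t a q := by
      intro k hk
      obtain ⟨c, hc⟩ := (hcol (l k)).1 (hlk k hk)
      refine ⟨fun j => p1 (c j), fun j => h1 _, fun q => ?_⟩
      have hq := hc q
      simp only [lc] at hq ⊢
      have := congrArg p2 hq
      rw [h2 _ _ (hn.1 t (Nat.lt_succ_self t) q), h3 _ (hl1 k hk), map_sum] at this
      rw [this]
      apply sum_congr rfl
      intro j hj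
      rw [h2 _ _ (hn.1 j (by have := mem_range.1 hj; omega) q)]
    choose! a ha1 ha2 using hlin
    -- the new syzygies
    let s : ℕ → ℕ → A := fun k q => if q < t then - a k q else if q = t then l k else 0
    have hs1 : ∀ k < m, ∀ q, s k q ∈ A1 := by
      intro k hk q
      simp only [s]
      split_ifs
      · exact hneg _ (ha1 k hk q)
      · exact hl1 k hk
      · exact h0
    have hst : ∀ k, s k t = l k := by
      intro k
      simp [s]
    have hsgt : ∀ k q, t + 1 ≤ q → s k q = 0 := by
      intro k q hq
      simp only [s]
      rw [if_neg (by omega), if_neg (by omega)]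
    have hslc : ∀ k < m, ∀ q, lc n (t + 1) (s k) q = 0 := by
      intro k hk q
      have h := ha2 k hk q
      simp only [lc] at h ⊢
      rw [sum_range_succ, hst, h, ← sum_add_distrib]
      apply sum_eq_zero
      intro j hj
      have : j < t := mem_range.1 hj
      simp only [s]
      rw [if_pos this]
      ring
    -- lc of old syzygies
    have hold : ∀ j < t', ∀ q, lc n (t + 1) (n' j) q = 0 := by
      intro j hj q
      have h := (hspan (n' j) (hsup j hj)).2 ⟨fun i => if i = j then 1 else 0, fun q => by
        rw [lc_single n' hj]⟩ q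
      simp only [lc] at h ⊢
      rw [sum_range_succ, h, hsup j hj t le_rfl]
      ring
    let n'' : ℕ → ℕ → A := fun j => if j < t' then n' j else s (j - t')
    have hn''1 : ∀ j < t', n'' j = n' j := by
      intro j hj
      simp only [n'']
      rw [if_pos hj]
    have hn''2 : ∀ k, n'' (t' + k) = s k := by
      intro k
      simp only [n'']
      rw [if_neg (by omega)]
      congr 1
      omega
    have hsplit : ∀ (k : ℕ) (c : ℕ → A) (q : ℕ), lc n'' (t' + k) c q =
        lc n' t' c q + ∑ i ∈ range k, c (t' + i) * s i q := by
      intro k c q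
      simp only [lc]
      rw [sum_range_add]
      congr 1
      · apply sum_congr rfl
        intro j hj
        rw [hn''1 j (mem_range.1 hj)]
      · apply sum_congr rfl
        intro i _
        rw [hn''2]
    have hn't : ∀ c : ℕ → A, lc n' t' c t = 0 := by
      intro c
      simp only [lc]
      apply sum_eq_zero
      intro j hj
      rw [hsup j (mem_range.1 hj) t le_rfl]
      ring
    have hn'gt : ∀ (c : ℕ → A) (q : ℕ), t ≤ q → lc n' t' c q = 0 := by
      intro c q hq
      simp only [lc]
      apply sum_eq_zero
      intro j hj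
      rw [hsup j (mem_range.1 hj) q hq]
      ring
    -- key: from a relation among the last coordinates
    have key : ∀ (k : ℕ), k ≤ m → ∀ (x : ℕ → A) (b : ℕ → A), (∀ q, t + 1 ≤ q → x q = 0) →
        (∀ q, lc n (t + 1) x q = 0) → x t = ∑ i ∈ range k, b i * l i →
        InSpan n'' (t' + k) x := by
      intro k hk x b hx hxs hxt
      let y : ℕ → A := fun q => x q - ∑ i ∈ range k, b i * s i q
      have hy0 : ∀ q, t ≤ q → y q = 0 := by
        intro q hq
        rcases Nat.eq_or_lt_of_le hq with h | h
        · subst h
          simp only [y, hst]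
          rw [hxt, sub_self]
        · simp only [y]
          rw [hx q h, sum_eq_zero, sub_self]
          intro i _
          rw [hsgt i q h]
          ring
      have hylc : ∀ q, lc n t y q = 0 := by
        intro q
        have e1 : lc n (t + 1) y q = 0 := by
          have : lc n (t + 1) y q = lc n (t + 1) x q -
              ∑ i ∈ range k, b i * lc n (t + 1) (s i) q := by
            simp only [lc, y]
            rw [eq_sub_iff_add_eq]
            simp only [mul_sum, sub_mul, sum_sub_distrib, sum_mul]
            rw [sum_comm (s := range k)]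
            simp only [← mul_assoc]
            ring
          rw [this, hxs q, zero_sub, neg_eq_zero]
          apply sum_eq_zero
          intro i hi
          rw [hslc i (by have := mem_range.1 hi; omega) q, mul_zero]
        simp only [lc] at e1 ⊢
        rw [sum_range_succ, hy0 t le_rfl] at e1
        simpa using e1
      obtain ⟨c, hc⟩ := (hspan y hy0).1 hylc
      refine ⟨fun j => if j < t' then c j else b (j - t'), fun q => ?_⟩
      rw [hsplit]
      have e2 : lc n' t' (fun j => if j < t' then c j else b (j - t')) q = lc n' t' c q := by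
        simp only [lc]
        apply sum_congr rfl
        intro j hj
        rw [if_pos (mem_range.1 hj)]
      rw [e2, ← hc q]
      have e3 : ∑ i ∈ range k, (if t' + i < t' then c (t' + i) else b (t' + i - t')) * s i q
          = ∑ i ∈ range k, b i * s i q := by
        apply sum_congr rfl
        intro i _
        rw [if_neg (by omega)]
        congr 2
        omega
      rw [e3]
      simp only [y]
      ring
    refine ⟨t' + m, n'', ⟨?_, ?_⟩, ?_, ?_⟩
    · intro j hj q
      rcases lt_or_ge j t' with h | h
      · rw [hn''1 j h]
        exact hn'.1 j h q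
      · obtain ⟨k, rfl⟩ := Nat.exists_eq_add_of_le h
        rw [hn''2]
        exact hs1 k (by omega) q
    · intro j hj
      rcases lt_or_ge j t' with h | h
      · obtain ⟨I', hI', hcol'⟩ := hn'.2 j h
        refine ⟨I', hI', fun x => ?_⟩
        rw [hcol', hn''1 j h]
        exact inSpan_congr (fun i hi => (hn''1 i (by omega)).symm) _
      · obtain ⟨k, rfl⟩ := Nat.exists_eq_add_of_le h
        have hkm : k < m := by omega
        obtain ⟨I', hI', hcol'⟩ := hlcol k hkm
        refine ⟨I', hI', fun x => ?_⟩
        rw [hcol', hn''2]
        constructor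
        · rintro ⟨b, hb⟩
          refine key k hkm.le (fun q => x * s k q) b ?_ ?_ ?_
          · intro q hq
            show x * s k q = 0
            rw [hsgt k q hq, mul_zero]
          · intro q
            have := hslc k hkm q
            simp only [lc] at this ⊢
            have e : ∑ j ∈ range (t + 1), x * s k j * n j q =
                x * ∑ j ∈ range (t + 1), s k j * n j q := by
              rw [mul_sum]
              apply sum_congr rfl
              intro j _
              ring
            rw [e, this, mul_zero]
          · show x * s k t = _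
            rw [hst]
            exact hb
        · rintro ⟨c, hc⟩
          have := hc t
          rw [hsplit, hn't] at this
          refine ⟨fun i => c (t' + i), ?_⟩
          simp only [hst] at this
          rw [this]
          ring
    · intro j hj q hq
      rcases lt_or_ge j t' with h | h
      · rw [hn''1 j h]
        exact hsup j h q (by omega)
      · obtain ⟨k, rfl⟩ := Nat.exists_eq_add_of_le h
        rw [hn''2]
        exact hsgt k q hq
    · intro c hc
      constructor
      · intro hlc
        have hct : c t ∈ I := by
          rw [hcol]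
          refine ⟨fun j => - c j, fun q => ?_⟩
          have := hlc q
          simp only [lc] at this ⊢
          rw [sum_range_succ] at this
          have e : ∑ j ∈ range t, -c j * n j q = - ∑ j ∈ range t, c j * n j q := by
            rw [← sum_neg_distrib]
            apply sum_congr rfl
            intro j _
            ring
          rw [e]
          linear_combination this
        obtain ⟨b, hb⟩ := (hlI _).1 hct
        exact key m le_rfl c b hc hlc hb
      · rintro ⟨d, hd⟩ q
        have e : lc n (t + 1) c q = ∑ j ∈ range (t' + m), d j * lc n (t + 1) (n'' j) q := by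
          simp only [lc]
          have : ∀ i, c i = ∑ j ∈ range (t' + m), d j * n'' j i := fun i => hd i
          simp only [this, mul_sum, sum_mul]
          rw [sum_comm]
          apply sum_congr rfl
          intro j _
          apply sum_congr rfl
          intro i _
          ring
        rw [e]
        apply sum_eq_zero
        intro j hj
        have hj' := mem_range.1 hj
        rcases lt_or_ge j t' with h | h
        · rw [hn''1 j h, hold j h q, mul_zero]
        · obtain ⟨k, rfl⟩ := Nat.exists_eq_add_of_le h
          rw [hn''2, hslc k (by omega) q, mul_zero]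

end Pool.Agent.V11118.KZ
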