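import Pool.Agent.V11118.KZ.Main

/-!
# The Koszul filtration of the explicit ring
-/

namespace Pool.Agent.V11118.KZ.Data

open MvPolynomial Finset Pool.Agent.V11118.KZ

noncomputable section

theorem exact_ent (c i1 i2 v : ℕ) (hc : c < 416) (h1 : i1 < 416) (h2 : i2 < 416) (hv : v < 18)
    (hm : (tE c).1.testBit v = true) (e1 : (tE i1).1 = (tE c).1 ^^^ 2 ^ v)
    (e2 : (tE i2).1 = (tE c).1 &&& stm v)
    (e3 : (tE c).2.2.2.2 = addS (tE i1).2.2.2.2 (0 :: (tE i2).2.2.2.2))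
    (f : MvPolynomial (Fin 18) ℚ) :
    X ⟨v, hv⟩ * f ∈ J adj ee (S (tE c).1) ↔ f ∈ J adj ee (S (tE i2).1) := by
  have hs : ∀ u, u ∈ S (tE c).1 → adj ⟨v, hv⟩ u → u ∈ S (tE i2).1 := by
    rw [e2]
    exact S_and hv
  constructor
  · refine inj_of_eq adj ee (W1 := S (tE i1).1) ?_ hs ?_
    · rw [e1]
      exact S_xor hv hm
    · intro k
      rw [qd_ent c hc, qd_ent i1 h1, qd_ent i2 h2, e3, hf_addS, hf_cons,
        if_neg (Nat.succ_ne_zero k), Nat.add_sub_cancel]
  · exact fun h => J_star adj ee hs h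

/-- the sets of the filtration -/
def WW : Set (Set (Fin 18)) := {W | ∃ x ∈ WL, W = S (tE x.1).1}

/-- the set of the ideal of all variables -/
def W0 : Set (Fin 18) := S (tE (WL.getD 0 (0, [])).1).1

theorem WL_mem (k : ℕ) (h : k < 46) : WL.getD k (0, []) ∈ WL := by
  rw [List.getD_eq_getElem _ _ (by rw [chk_len.2.2]; exact h)]
  exact List.getElem_mem _

theorem leaf_top (c : ℕ) (hc : c < 416) (h18 : (tE c).2.1 = 18) (v : Fin 18) :
    (X v : MvPolynomial (Fin 18) ℚ) ∈ J adj ee (S (tE c).1) := by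
  have h := chk_T c hc
  unfold chkT at h
  simp only at h
  rw [if_pos h18] at h
  simp only [Bool.and_eq_true, decide_eq_true_eq, beq_iff_eq] at h
  obtain ⟨⟨h1, h2⟩, h3⟩ := h
  rw [← h2]
  exact leaf_ok _ (FL_mem _ h1) v

theorem W0_top (v : Fin 18) : (X v : MvPolynomial (Fin 18) ℚ) ∈ J adj ee W0 :=
  leaf_top _ chk_W0.2 chk_W0.1 v

theorem W0_mem : W0 ∈ WW := ⟨_, WL_mem 0 (by norm_num), rfl⟩

/-- the vertices of a path -/
def vsOf (p : List (ℕ × ℕ × ℕ × ℕ)) : List (Fin 18) := p.map fun x => Fin.ofNat 18 x.1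

theorem ofNat_eq {v : ℕ} (hv : v < 18) : Fin.ofNat 18 v = ⟨v, hv⟩ :=
  Fin.ext (Nat.mod_eq_of_lt hv)

theorem path_ok (tgt : ℕ) (p : List (ℕ × ℕ × ℕ × ℕ)) : ∀ (c : ℕ) (pre : List (Fin 18)),
    c < 416 → (∀ u, u ∈ S (tE c).1 ↔ u ∉ pre) → chkP c p tgt = true →
    (∀ u, u ∈ S (tE tgt).1 ↔ u ∉ pre ++ vsOf p) ∧
      ∀ k, ∀ h : k < (vsOf p).length, ∃ W' ∈ WW, ∀ f : MvPolynomial (Fin 18) ℚ,
        X (vsOf p)[k] * f ∈ J adj ee {u | u ∉ pre ++ (vsOf p).take k} ↔ f ∈ J adj ee W' := by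
  induction p with
  | nil =>
    intro c pre _ hpre h
    unfold chkP at h
    rw [beq_iff_eq] at h
    subst h
    refine ⟨?_, ?_⟩
    · simpa [vsOf] using hpre
    · intro k hk
      simp [vsOf] at hk
  | cons x p ih =>
    intro c pre hc hpre h
    unfold chkP at h
    simp only [Bool.and_eq_true, Bool.or_eq_true, decide_eq_true_eq, beq_iff_eq] at h
    obtain ⟨⟨⟨⟨⟨⟨⟨⟨a1, a2⟩, a3⟩, a4⟩, a5⟩, a6⟩, a7⟩, a8⟩, a9⟩ := h
    have hvs : vsOf (x :: p) = ⟨x.1, a1⟩ :: vsOf p := by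
      unfold vsOf
      rw [List.map_cons, ofNat_eq a1]
    have hpre' : ∀ u, u ∈ S (tE x.2.1).1 ↔ u ∉ pre ++ [⟨x.1, a1⟩] := by
      intro u
      rw [a5, S_xor a1 a4, hpre, List.mem_append, List.mem_singleton, not_or]
    obtain ⟨r1, r2⟩ := ih x.2.1 (pre ++ [⟨x.1, a1⟩]) a2 hpre' a9
    refine ⟨?_, ?_⟩
    · intro u
      rw [r1 u, hvs]
      simp
    · intro k hk
      cases k with
      | zero =>
        have hW : {u | u ∉ pre ++ (vsOf (x :: p)).take 0} = S (tE c).1 := by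
          ext u
          simp only [List.take_zero, List.append_nil]
          exact (hpre u).symm
        have hex := exact_ent c x.2.1 x.2.2.1 x.1 hc a2 a3 a1 a4 a5 a6 a7
        rcases a8 with ⟨_, b2⟩ | ⟨b1, b2⟩
        · refine ⟨W0, W0_mem, fun f => ?_⟩
          rw [hW]
          have e : (vsOf (x :: p))[0] = ⟨x.1, a1⟩ := by simp [hvs]
          rw [e, hex f, J_top adj ee _ (leaf_top _ a3 b2), J_top adj ee _ W0_top]
        · refine ⟨S (tE x.2.2.1).1, ⟨_, WL_mem _ b1, by rw [b2]⟩, fun f => ?_⟩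
          rw [hW]
          have e : (vsOf (x :: p))[0] = ⟨x.1, a1⟩ := by simp [hvs]
          rw [e, hex f]
      | succ k =>
        have hk' : k < (vsOf p).length := by
          have := hk
          rw [hvs, List.length_cons] at this
          omega
        obtain ⟨W', hW', hf'⟩ := r2 k hk'
        refine ⟨W', hW', fun f => ?_⟩
        have e1 : (vsOf (x :: p))[k + 1] = (vsOf p)[k] := by simp [hvs]
        have e2 : {u | u ∉ pre ++ (vsOf (x :: p)).take (k + 1)} =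
            {u | u ∉ pre ++ [⟨x.1, a1⟩] ++ (vsOf p).take k} := by
          rw [hvs]
          simp
        rw [e1, e2]
        exact hf' f

theorem S_full : S (tE 415).1 = Set.univ := by
  rw [chk_full]
  ext u
  have h : ∀ u : Fin 18, (262143 : ℕ).testBit u = true := by decide
  simp only [Set.mem_univ, iff_true]
  exact h u

/-- the linear free resolution of the explicit ring -/
theorem resolution_data {I : Ideal (MvPolynomial (Fin 18) ℚ)}
    (hI : I = J adj ee Set.univ) :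
    ∃ (b : ℕ → ℕ) (d : ∀ i, Matrix (Fin (b (i + 1))) (Fin (b i)) (MvPolynomial (Fin 18) ℚ ⧸ I)),
      b 0 = 1 ∧ (∀ i p q, d i p q ∈ linForms I) ∧
      (∀ c : Fin (b 0) → MvPolynomial (Fin 18) ℚ ⧸ I,
        c ∈ LinearMap.range (d 0).vecMulLinear ↔ ∀ q, c q ∈ Ideal.span (linForms I)) ∧
      ∀ i, LinearMap.range (d (i + 1)).vecMulLinear = LinearMap.ker (d i).vecMulLinear := by
  refine resolution adj ee hI WW ?_ W0 W0_mem W0_top
  rintro W ⟨x, hx, rfl⟩
  obtain ⟨h1, h2⟩ := chk_P x hx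
  have h := path_ok x.1 x.2 415 [] (by norm_num) (by
    intro u
    rw [S_full]
    simp) h2
  refine ⟨vsOf x.2, ?_, ?_⟩
  · intro u
    rw [h.1 u, List.nil_append]
  · intro k hk
    obtain ⟨W', hW', hf'⟩ := h.2 k hk
    refine ⟨W', hW', fun f => ?_⟩
    have := hf' f
    simp only [List.nil_append] at this
    exact this

theorem qd_full (k : ℕ) : qd adj ee Set.univ k = hf [1, 11, 39, 59, 39, 11, 1] k := by
  rw [← S_full, qd_ent 415 (by norm_num), chk_h415]

end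

end Pool.Agent.V11118.KZ.Data
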