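import Mathlib

/-!
# Quotients of face rings of flag complexes by linear forms: graded pieces
-/

namespace Pool.Agent.V11118.KZ

open MvPolynomial Finset

noncomputable section

attribute [local instance] MvPolynomial.gradedAlgebra

variable {V ι : Type} [Fintype V] [DecidableEq V] [Fintype ι]

/-- the linear form with the coefficients `e i` -/
def theta (e : ι → V → ℚ) (i : ι) : MvPolynomial V ℚ := ∑ v, C (e i v) * X v

/-- the ideal of the non-edges and of the variables outside `W` -/
def mono (adj : V → V → Prop) (W : Set V) : Ideal (MvPolynomial V ℚ) :=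
  Ideal.span ({p | ∃ u v, ¬ adj u v ∧ p = X u * X v} ∪ {p | ∃ v, v ∉ W ∧ p = X v})

/-- the ideal of the non-edges, the linear forms and the variables outside `W` -/
def J (adj : V → V → Prop) (e : ι → V → ℚ) (W : Set V) : Ideal (MvPolynomial V ℚ) :=
  mono adj W ⊔ Ideal.span (Set.range (theta e))

omit [DecidableEq V] [Fintype ι] in
theorem theta_hom (e : ι → V → ℚ) (i : ι) : (theta e i).IsHomogeneous 1 := by
  unfold theta
  apply IsHomogeneous.sum
  intro v _
  exact isHomogeneous_C_mul_X _ _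

omit [Fintype V] [DecidableEq V] in
theorem mono_hom (adj : V → V → Prop) (W : Set V) :
    (mono adj W).IsHomogeneous (homogeneousSubmodule V ℚ) := by
  unfold mono
  apply Ideal.homogeneous_span
  rintro p (⟨u, v, _, rfl⟩ | ⟨v, _, rfl⟩)
  · exact ⟨2, (isHomogeneous_X ℚ u).mul (isHomogeneous_X ℚ v)⟩
  · exact ⟨1, isHomogeneous_X ℚ v⟩

omit [DecidableEq V] [Fintype ι] in
theorem J_hom (adj : V → V → Prop) (e : ι → V → ℚ) (W : Set V) :
    (J adj e W).IsHomogeneous (homogeneousSubmodule V ℚ) := by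
  unfold J
  apply Ideal.IsHomogeneous.sup (mono_hom adj W)
  apply Ideal.homogeneous_span
  rintro p ⟨i, rfl⟩
  exact ⟨1, theta_hom e i⟩

omit [Fintype V] [DecidableEq V] in
theorem hc_mul (a l : MvPolynomial V ℚ) (hl : l.IsHomogeneous 1) (k : ℕ) :
    homogeneousComponent (k + 1) (a * l) = homogeneousComponent k a * l := by
  have h := DirectSum.coe_decompose_mul_of_right_mem_of_le (homogeneousSubmodule V ℚ)
    (a := a) (b := l) (i := 1) (n := k + 1) hl (by omega)
  have e : ∀ (p : MvPolynomial V ℚ) (j : ℕ),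
      ((DirectSum.decompose (homogeneousSubmodule V ℚ) p j : _) : MvPolynomial V ℚ) =
        homogeneousComponent j p := fun p j => decomposition.decompose'_apply p j
  rw [e, e] at h
  exact h

omit [DecidableEq V] in
theorem J_decomp (adj : V → V → Prop) (e : ι → V → ℚ) (W : Set V) (k : ℕ)
    (f : MvPolynomial V ℚ) (hf : f ∈ J adj e W) (hk : f.IsHomogeneous (k + 1)) :
    ∃ g : ι → MvPolynomial V ℚ, ∃ m ∈ mono adj W, (∀ i, (g i).IsHomogeneous k) ∧
      f = m + ∑ i, g i * theta e i := by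
  obtain ⟨m, hm, t, ht, rfl⟩ := Submodule.mem_sup.1 hf
  obtain ⟨c, rfl⟩ := (Submodule.mem_span_range_iff_exists_fun _).1 ht
  refine ⟨fun i => homogeneousComponent k (c i), homogeneousComponent (k + 1) m,
    homogeneousComponent_mem_of_mem (mono_hom adj W) hm _,
    fun i => homogeneousComponent_isHomogeneous _ _, ?_⟩
  have h1 := (homogeneousComponent_of_mem (m := k + 1) hk)
  rw [if_pos rfl] at h1
  rw [← h1, map_add, map_sum]
  congr 1
  apply sum_congr rfl
  intro i _
  rw [smul_eq_mul, hc_mul _ _ (theta_hom e i)]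

omit [Fintype V] [DecidableEq V] in
theorem mono_mono (adj : V → V → Prop) {W W' : Set V} (h : W' ⊆ W) :
    mono adj W ≤ mono adj W' := by
  unfold mono
  apply Ideal.span_mono
  apply Set.union_subset_union_right
  rintro p ⟨v, hv, rfl⟩
  exact ⟨v, fun h' => hv (h h'), rfl⟩

omit [DecidableEq V] [Fintype ι] in
theorem J_mono (adj : V → V → Prop) (e : ι → V → ℚ) {W W' : Set V} (h : W' ⊆ W) :
    J adj e W ≤ J adj e W' := sup_le_sup_right (mono_mono adj h) _

omit [DecidableEq V] [Fintype ι] in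
theorem X_mem_J (adj : V → V → Prop) (e : ι → V → ℚ) {W : Set V} {v : V} (h : v ∉ W) :
    X v ∈ J adj e W :=
  Ideal.mem_sup_left (Ideal.subset_span (Or.inr ⟨v, h, rfl⟩))

omit [DecidableEq V] [Fintype ι] in
theorem XX_mem_J (adj : V → V → Prop) (e : ι → V → ℚ) {W : Set V} {u v : V} (h : ¬ adj u v) :
    X u * X v ∈ J adj e W :=
  Ideal.mem_sup_left (Ideal.subset_span (Or.inl ⟨u, v, h, rfl⟩))

omit [DecidableEq V] [Fintype ι] in
/-- deleting a vertex adds a variable -/
theorem J_erase (adj : V → V → Prop) (e : ι → V → ℚ) {W W' : Set V} {v : V}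
    (h : ∀ u, u ∈ W' ↔ u ∈ W ∧ u ≠ v) :
    J adj e W' = J adj e W ⊔ Ideal.span {X v} := by
  apply le_antisymm
  · unfold J mono
    refine sup_le (Ideal.span_le.2 ?_) (le_sup_of_le_left le_sup_right)
    rintro p (⟨u, w, huw, rfl⟩ | ⟨u, hu, rfl⟩)
    · exact Ideal.mem_sup_left (Ideal.mem_sup_left (Ideal.subset_span (Or.inl ⟨u, w, huw, rfl⟩)))
    · by_cases huv : u = v
      · subst huv
        exact Ideal.mem_sup_right (Ideal.mem_span_singleton_self _)
      · have : u ∉ W := fun hW => hu ((h u).2 ⟨hW, huv⟩)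
        exact Ideal.mem_sup_left (Ideal.mem_sup_left (Ideal.subset_span (Or.inr ⟨u, this, rfl⟩)))
  · refine sup_le (J_mono adj e (fun u hu => ((h u).1 hu).1)) ?_
    rw [Ideal.span_singleton_le_iff_mem]
    exact X_mem_J adj e (fun hv => ((h v).1 hv).2 rfl)

omit [DecidableEq V] [Fintype ι] in
/-- multiplication by a vertex maps the ideal of its star to the ideal -/
theorem J_star (adj : V → V → Prop) (e : ι → V → ℚ) {W W' : Set V} {v : V}
    (h : ∀ u, u ∈ W → adj v u → u ∈ W') {f : MvPolynomial V ℚ} (hf : f ∈ J adj e W') :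
    X v * f ∈ J adj e W := by
  have : J adj e W' ≤
      Submodule.comap (LinearMap.mulLeft (MvPolynomial V ℚ) (X v)) (J adj e W) := by
    conv_lhs => unfold J mono
    refine sup_le (Submodule.span_le.2 ?_) (Submodule.span_le.2 ?_)
    · rintro p (⟨u, w, huw, rfl⟩ | ⟨u, hu, rfl⟩)
      · show X v * (X u * X w) ∈ J adj e W
        exact Ideal.mul_mem_left _ _ (XX_mem_J adj e huw)
      · show X v * X u ∈ J adj e W
        by_cases huW : u ∈ W
        · exact XX_mem_J adj e (fun ha => hu (h u huW ha))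
        · exact Ideal.mul_mem_left _ _ (X_mem_J adj e huW)
    · rintro p ⟨i, rfl⟩
      show X v * theta e i ∈ J adj e W
      exact Ideal.mul_mem_left _ _ (Ideal.mem_sup_right (Ideal.subset_span ⟨i, rfl⟩))
  exact this hf

/-- the homogeneous polynomials of degree `k` -/
abbrev E (V : Type) (k : ℕ) : Submodule ℚ (MvPolynomial V ℚ) := homogeneousSubmodule V ℚ k

/-- the part of degree `k` of the ideal -/
def JE (adj : V → V → Prop) (e : ι → V → ℚ) (W : Set V) (k : ℕ) :
    Submodule ℚ (MvPolynomial V ℚ) := (J adj e W).restrictScalars ℚ ⊓ E V k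

omit [DecidableEq V] in
theorem finE (k : ℕ) : Module.Finite ℚ (E V k) :=
  Module.Finite.iff_fg.2 (homogeneousSubmodule_fg V ℚ k)

omit [DecidableEq V] [Fintype ι] in
theorem finJE (adj : V → V → Prop) (e : ι → V → ℚ) (W : Set V) (k : ℕ) :
    Module.Finite ℚ (JE adj e W k) := by
  have := finE (V := V) k
  exact Submodule.finiteDimensional_of_le (inf_le_right : JE adj e W k ≤ E V k)

/-- the dimension of the part of degree `k` of the quotient -/
def qd (adj : V → V → Prop) (e : ι → V → ℚ) (W : Set V) (k : ℕ) : ℕ :=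
  Module.finrank ℚ (E V k) - Module.finrank ℚ (JE adj e W k)

omit [DecidableEq V] [Fintype ι] in
theorem qd_add (adj : V → V → Prop) (e : ι → V → ℚ) (W : Set V) (k : ℕ) :
    qd adj e W k + Module.finrank ℚ (JE adj e W k) = Module.finrank ℚ (E V k) := by
  have := finE (V := V) k
  have : Module.finrank ℚ (JE adj e W k) ≤ Module.finrank ℚ (E V k) :=
    Submodule.finrank_mono inf_le_right
  unfold qd
  omega

/-- multiplication by `X v` on the pieces -/
def mX (v : V) : MvPolynomial V ℚ →ₗ[ℚ] MvPolynomial V ℚ := LinearMap.mulLeft ℚ (X v)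

omit [Fintype V] [DecidableEq V] in
theorem mX_inj (v : V) : Function.Injective (mX v) := by
  intro a b h
  have h' : X v * a = X v * b := h
  exact mul_left_cancel₀ (X_ne_zero v) h'

omit [Fintype V] [DecidableEq V] in
theorem finrank_mX (v : V) (p : Submodule ℚ (MvPolynomial V ℚ)) :
    Module.finrank ℚ (p.map (mX v)) = Module.finrank ℚ p :=
  (Submodule.equivMapOfInjective (mX v) (mX_inj v) p).finrank_eq.symm

omit [DecidableEq V] [Fintype ι] in
theorem JE_erase (adj : V → V → Prop) (e : ι → V → ℚ) {W W' : Set V} {v : V}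
    (h : ∀ u, u ∈ W' ↔ u ∈ W ∧ u ≠ v) (k : ℕ) :
    JE adj e W' (k + 1) = JE adj e W (k + 1) ⊔ (E V k).map (mX v) := by
  apply le_antisymm
  · rintro f ⟨hf, hk⟩
    have hf' : f ∈ J adj e W ⊔ Ideal.span {X v} := by
      rw [← J_erase adj e h]
      exact hf
    obtain ⟨j, hj, t, ht, rfl⟩ := Submodule.mem_sup.1 hf'
    obtain ⟨g, rfl⟩ := Ideal.mem_span_singleton'.1 ht
    have h1 := (homogeneousComponent_of_mem (m := k + 1) hk)
    rw [if_pos rfl] at h1
    rw [← h1, map_add, hc_mul g (X v) (isHomogeneous_X ℚ v)]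
    refine Submodule.add_mem_sup ⟨homogeneousComponent_mem_of_mem (J_hom adj e W) hj _,
      homogeneousComponent_isHomogeneous _ _⟩ ?_
    refine ⟨homogeneousComponent k g, homogeneousComponent_isHomogeneous _ _, ?_⟩
    show X v * _ = _
    rw [mul_comm]
  · refine sup_le (inf_le_inf_right _ (J_mono adj e (fun u hu => ((h u).1 hu).1))) ?_
    rintro f ⟨g, hg, rfl⟩
    refine ⟨Ideal.mul_mem_right _ _ (X_mem_J adj e (fun hv => ((h v).1 hv).2 rfl)), ?_⟩
    have := (isHomogeneous_X ℚ v).mul hg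
    rw [add_comm] at this
    exact this

omit [DecidableEq V] [Fintype ι] in
theorem JE_star (adj : V → V → Prop) (e : ι → V → ℚ) {W W' : Set V} {v : V}
    (h : ∀ u, u ∈ W → adj v u → u ∈ W') (k : ℕ) :
    (JE adj e W' k).map (mX v) ≤ JE adj e W (k + 1) ⊓ (E V k).map (mX v) := by
  rintro f ⟨g, ⟨hg, hk⟩, rfl⟩
  refine ⟨⟨J_star adj e h hg, ?_⟩, ⟨g, hk, rfl⟩⟩
  have := (isHomogeneous_X ℚ v).mul hk
  rw [add_comm] at this
  exact this

omit [DecidableEq V] [Fintype ι] in
/-- the dimension identity behind the exact sequence -/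
theorem dim_id (adj : V → V → Prop) (e : ι → V → ℚ) {W W1 : Set V} {v : V}
    (h1 : ∀ u, u ∈ W1 ↔ u ∈ W ∧ u ≠ v) (k : ℕ) :
    Module.finrank ℚ (JE adj e W1 (k + 1)) +
      Module.finrank ℚ (JE adj e W (k + 1) ⊓ (E V k).map (mX v) : Submodule ℚ _) =
    Module.finrank ℚ (JE adj e W (k + 1)) + Module.finrank ℚ (E V k) := by
  have := finE (V := V) k
  have := finJE adj e W (k + 1)
  rw [JE_erase adj e h1 k, Submodule.finrank_sup_add_finrank_inf_eq]
  congr 1
  exact finrank_mX v _

omit [DecidableEq V] [Fintype ι] in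
/-- upper bound for the Hilbert function -/
theorem qd_le (adj : V → V → Prop) (e : ι → V → ℚ) {W W1 W2 : Set V} {v : V}
    (h1 : ∀ u, u ∈ W1 ↔ u ∈ W ∧ u ≠ v) (h2 : ∀ u, u ∈ W → adj v u → u ∈ W2) (k : ℕ) :
    qd adj e W (k + 1) ≤ qd adj e W1 (k + 1) + qd adj e W2 k := by
  have := finE (V := V) k
  have := finJE adj e W (k + 1)
  have a1 := qd_add adj e W (k + 1)
  have a2 := qd_add adj e W1 (k + 1)
  have a3 := qd_add adj e W2 k
  have a4 := dim_id adj e h1 k
  have a5 := Submodule.finrank_mono (JE_star adj e h2 k)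
  have a6 : Module.finrank ℚ ((JE adj e W2 k).map (mX v)) = Module.finrank ℚ (JE adj e W2 k) :=
    finrank_mX v _
  omega

omit [DecidableEq V] [Fintype ι] in
/-- if the upper bound is attained then multiplication by `X v` is injective -/
theorem inj_of_eq (adj : V → V → Prop) (e : ι → V → ℚ) {W W1 W2 : Set V} {v : V}
    (h1 : ∀ u, u ∈ W1 ↔ u ∈ W ∧ u ≠ v) (h2 : ∀ u, u ∈ W → adj v u → u ∈ W2)
    (hq : ∀ k, qd adj e W (k + 1) = qd adj e W1 (k + 1) + qd adj e W2 k)
    {f : MvPolynomial V ℚ} (hf : X v * f ∈ J adj e W) : f ∈ J adj e W2 := by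
  rw [mem_iff_homogeneousComponent_mem (J_hom adj e W2)]
  intro k
  have := finE (V := V) k
  have := finJE adj e W (k + 1)
  have a1 := qd_add adj e W (k + 1)
  have a2 := qd_add adj e W1 (k + 1)
  have a3 := qd_add adj e W2 k
  have a4 := dim_id adj e h1 k
  have a6 : Module.finrank ℚ ((JE adj e W2 k).map (mX v)) = Module.finrank ℚ (JE adj e W2 k) :=
    finrank_mX v _
  have hk := hq k
  have heq : (JE adj e W2 k).map (mX v) = JE adj e W (k + 1) ⊓ (E V k).map (mX v) := by
    apply Submodule.eq_of_le_of_finrank_eq (JE_star adj e h2 k)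
    omega
  have hmem : mX v (homogeneousComponent k f) ∈ (JE adj e W2 k).map (mX v) := by
    rw [heq]
    refine ⟨⟨?_, ?_⟩, ⟨_, homogeneousComponent_isHomogeneous _ _, rfl⟩⟩
    · have h3 := homogeneousComponent_mem_of_mem (J_hom adj e W) hf (k + 1)
      rw [mul_comm, hc_mul f (X v) (isHomogeneous_X ℚ v), mul_comm] at h3
      exact h3
    · have h4 := (isHomogeneous_X ℚ v).mul (homogeneousComponent_isHomogeneous k f)
      rw [add_comm] at h4
      exact h4
  obtain ⟨g, hg, hgf⟩ := hmem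
  rw [← mX_inj v hgf]
  exact hg.1

end

end Pool.Agent.V11118.KZ
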