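import Pool.Agent.V11118.KZ.Filt

/-!
# A Koszul filtration gives an infinite linear free resolution of the quotient by the ideal `M`
-/

namespace Pool.Agent.V11118.KZ

open Finset

variable {A : Type*} [CommRing A]

/-- extension by zero -/
def ext0 {t : ℕ} (c : Fin t → A) : ℕ → A := fun q => if h : q < t then c ⟨q, h⟩ else 0

theorem ext0_apply {t : ℕ} (c : Fin t → A) (q : Fin t) : ext0 c q = c q := by
  simp [ext0]

theorem ext0_ge {t : ℕ} (c : Fin t → A) {q : ℕ} (h : t ≤ q) : ext0 c q = 0 := by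
  simp [ext0, not_lt.2 h]

/-- the matrix of a sequence of vectors -/
def mat (n : ℕ → ℕ → A) (t r : ℕ) : Matrix (Fin t) (Fin r) A := fun p q => n p q

theorem vecMul_mat (n : ℕ → ℕ → A) (t r : ℕ) (c : Fin t → A) (q : Fin r) :
    (mat n t r).vecMulLinear c q = lc n t (ext0 c) q := by
  rw [Matrix.vecMulLinear_apply]
  simp only [Matrix.vecMul, dotProduct, mat, lc]
  rw [Finset.sum_range]
  apply sum_congr rfl
  intro j _
  rw [ext0_apply]

theorem mem_ker_mat (n : ℕ → ℕ → A) (t r : ℕ) (hn : ∀ j < t, ∀ q, r ≤ q → n j q = 0)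
    (c : Fin t → A) : c ∈ LinearMap.ker (mat n t r).vecMulLinear ↔ ∀ q, lc n t (ext0 c) q = 0 := by
  rw [LinearMap.mem_ker]
  constructor
  · intro h q
    rcases lt_or_ge q r with hq | hq
    · have := congrFun h ⟨q, hq⟩
      rw [vecMul_mat] at this
      exact this
    · simp only [lc]
      apply sum_eq_zero
      intro j hj
      rw [hn j (mem_range.1 hj) q hq, mul_zero]
  · intro h
    funext q
    rw [vecMul_mat, h q]
    rfl

theorem mem_range_mat (n : ℕ → ℕ → A) (t r : ℕ) (hn : ∀ j < t, ∀ q, r ≤ q → n j q = 0)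
    (c : Fin r → A) : c ∈ LinearMap.range (mat n t r).vecMulLinear ↔ InSpan n t (ext0 c) := by
  rw [LinearMap.mem_range]
  constructor
  · rintro ⟨v, hv⟩
    refine ⟨ext0 v, fun q => ?_⟩
    rcases lt_or_ge q r with hq | hq
    · have := congrFun hv ⟨q, hq⟩
      rw [vecMul_mat] at this
      rw [this]
      exact ext0_apply c ⟨q, hq⟩
    · rw [ext0_ge c hq]
      symm
      simp only [lc]
      apply sum_eq_zero
      intro j hj
      rw [hn j (mem_range.1 hj) q hq, mul_zero]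
  · rintro ⟨d, hd⟩
    refine ⟨fun j => d j, ?_⟩
    funext q
    rw [vecMul_mat]
    have := hd q
    rw [ext0_apply] at this
    rw [this]
    simp only [lc]
    apply sum_congr rfl
    intro j hj
    have e : ext0 (fun j : Fin t => d j) j = d j := ext0_apply _ ⟨j, mem_range.1 hj⟩
    rw [e]

theorem exists_resolution (A1 : Set A) (F : Set (Set A)) (hF : KFilt A1 F)
    (h0 : (0 : A) ∈ A1) (hneg : ∀ a ∈ A1, -a ∈ A1)
    (p1 p2 : A →+ A) (h1 : ∀ a, p1 a ∈ A1) (h2 : ∀ a, ∀ l ∈ A1, p2 (a * l) = p1 a * l)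
    (h3 : ∀ l ∈ A1, p1 l = l) (M : Set A) (hM : M ∈ F) :
    ∃ (b : ℕ → ℕ) (d : ∀ i, Matrix (Fin (b (i + 1))) (Fin (b i)) A), b 0 = 1 ∧
      (∀ i p q, d i p q ∈ A1) ∧
      (∀ c : Fin (b 0) → A, c ∈ LinearMap.range (d 0).vecMulLinear ↔ ∀ q, c q ∈ M) ∧
      ∀ i, LinearMap.range (d (i + 1)).vecMulLinear = LinearMap.ker (d i).vecMulLinear := by
  classical
  obtain ⟨m, l, hl1, hlM, hlcol⟩ := hF M hM
  let S := {p : ℕ × (ℕ → ℕ → A) // FSeq A1 F p.2 p.1}
  have hstep : ∀ p : S, ∃ p' : S, (∀ j < p'.1.1, ∀ q, p.1.1 ≤ q → p'.1.2 j q = 0) ∧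
      ∀ c : ℕ → A, (∀ q, p.1.1 ≤ q → c q = 0) →
        ((∀ q, lc p.1.2 p.1.1 c q = 0) ↔ InSpan p'.1.2 p'.1.1 c) := by
    rintro ⟨⟨t, n⟩, hn⟩
    obtain ⟨t', n', hn', hs, hc⟩ := syz A1 F hF h0 hneg p1 p2 h1 h2 h3 t n hn
    exact ⟨⟨⟨t', n'⟩, hn'⟩, hs, hc⟩
  choose nx hnx1 hnx2 using hstep
  let n0 : ℕ → ℕ → A := fun j q => if q = 0 then l j else 0
  have hn0 : FSeq A1 F n0 m := by
    refine ⟨?_, ?_⟩
    · intro j hj q
      simp only [n0]
      split_ifs
      · exact hl1 j hj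
      · exact h0
    · intro j hj
      obtain ⟨I', hI', hc'⟩ := hlcol j hj
      refine ⟨I', hI', fun a => ?_⟩
      rw [hc']
      constructor
      · rintro ⟨c, hc⟩
        refine ⟨c, fun q => ?_⟩
        by_cases hq : q = 0
        · simp [n0, lc, hq, hc]
        · simp [n0, lc, hq]
      · rintro ⟨c, hc⟩
        refine ⟨c, ?_⟩
        have := hc 0
        simpa [n0, lc] using this
  let st : ℕ → S := fun i => Nat.rec (⟨⟨m, n0⟩, hn0⟩ : S) (fun _ p => nx p) i
  have hst : ∀ i, st (i + 1) = nx (st i) := fun i => rfl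
  let T : ℕ → ℕ := fun i => Nat.casesOn i 1 (fun i => (st i).1.1)
  have hT0 : T 0 = 1 := rfl
  have hT1 : ∀ i, T (i + 1) = (st i).1.1 := fun i => rfl
  have hsupp : ∀ i, ∀ j < T (i + 1), ∀ q, T i ≤ q → (st i).1.2 j q = 0 := by
    intro i
    cases i with
    | zero =>
      intro j _ q hq
      show n0 j q = 0
      simp only [n0]
      rw [if_neg]
      have : 1 ≤ q := hq
      omega
    | succ i =>
      intro j hj q hq
      exact hnx1 (st i) j hj q hq
  refine ⟨T, fun i => mat (st i).1.2 (T (i + 1)) (T i), hT0, ?_, ?_, ?_⟩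
  · intro i p q
    exact (st i).2.1 p.1 p.2 q.1
  · intro c
    rw [mem_range_mat _ _ _ (hsupp 0)]
    constructor
    · rintro ⟨d, hd⟩ q
      have hq : q.1 = 0 := by
        have h : q.1 < 1 := q.2
        omega
      rw [hlM]
      refine ⟨d, ?_⟩
      have h := hd q.1
      rw [ext0_apply] at h
      rw [h]
      simp only [lc]
      apply sum_congr rfl
      intro j _
      show d j * n0 j q.1 = d j * l j
      simp [n0, hq]
    · intro h
      obtain ⟨d, hd⟩ := (hlM _).1 (h ⟨0, by rw [hT0]; exact Nat.one_pos⟩)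
      refine ⟨d, fun q => ?_⟩
      by_cases hq : q = 0
      · subst hq
        have e : ext0 c 0 = c ⟨0, by rw [hT0]; exact Nat.one_pos⟩ :=
          ext0_apply c ⟨0, by rw [hT0]; exact Nat.one_pos⟩
        rw [e, hd]
        simp only [lc]
        apply sum_congr rfl
        intro j _
        show d j * l j = d j * n0 j 0
        simp [n0]
      · rw [ext0_ge c (by rw [hT0]; omega)]
        symm
        simp only [lc]
        apply sum_eq_zero
        intro j _
        show d j * n0 j q = 0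
        simp [n0, hq]
  · intro i
    ext c
    rw [mem_range_mat _ _ _ (hsupp (i + 1)), mem_ker_mat _ _ _ (hsupp i)]
    exact (hnx2 (st i) (ext0 c) (fun q hq => ext0_ge c hq)).symm

end Pool.Agent.V11118.KZ
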