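import Pool.Agent.V11118.KZ.Low
import Pool.Agent.V11118.KZ.Res

/-!
# The quotient ring has a linear resolution
-/

namespace Pool.Agent.V11118.KZ

open MvPolynomial Finset

noncomputable section

attribute [local instance] MvPolynomial.gradedAlgebra

variable {V ι : Type} [Fintype V] [DecidableEq V] [Fintype ι]

/-- the classes of the linear forms -/
def linForms (I : Ideal (MvPolynomial V ℚ)) : Set (MvPolynomial V ℚ ⧸ I) :=
  {a | ∃ f : MvPolynomial V ℚ, f.IsHomogeneous 1 ∧ Ideal.Quotient.mk I f = a}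

/-- the image of the ideal of `W` -/
def IW (adj : V → V → Prop) (e : ι → V → ℚ) (I : Ideal (MvPolynomial V ℚ)) (W : Set V) :
    Set (MvPolynomial V ℚ ⧸ I) :=
  {a | ∃ f ∈ J adj e W, Ideal.Quotient.mk I f = a}

omit [DecidableEq V] [Fintype ι] in
theorem mk_mem_IW (adj : V → V → Prop) (e : ι → V → ℚ) {I : Ideal (MvPolynomial V ℚ)}
    (hI : I = J adj e Set.univ) (W : Set V) (f : MvPolynomial V ℚ) :
    Ideal.Quotient.mk I f ∈ IW adj e I W ↔ f ∈ J adj e W := by
  constructor
  · rintro ⟨g, hg, hgf⟩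
    rw [Ideal.Quotient.eq] at hgf
    have h1 : g - f ∈ J adj e W := by
      have : I ≤ J adj e W := by
        rw [hI]
        exact J_mono adj e (Set.subset_univ W)
      exact this hgf
    have := (J adj e W).sub_mem hg h1
    simpa using this
  · intro h
    exact ⟨f, h, rfl⟩

omit [DecidableEq V] [Fintype ι] in
theorem list_gen (adj : V → V → Prop) (e : ι → V → ℚ) {I : Ideal (MvPolynomial V ℚ)}
    (hI : I = J adj e Set.univ) (vs : List V) (l : ℕ → MvPolynomial V ℚ ⧸ I)
    (hl : ∀ k, ∀ h : k < vs.length, l k = Ideal.Quotient.mk I (X vs[k])) (k : ℕ)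
    (hk : k ≤ vs.length) : ∀ a, (∃ c : ℕ → MvPolynomial V ℚ ⧸ I, a = ∑ i ∈ range k, c i * l i) ↔
      a ∈ IW adj e I {u | u ∉ vs.take k} := by
  induction k with
  | zero =>
    intro a
    obtain ⟨f, rfl⟩ := Ideal.Quotient.mk_surjective a
    rw [mk_mem_IW adj e hI]
    have : {u | u ∉ vs.take 0} = (Set.univ : Set V) := by
      ext u
      simp
    rw [this, ← hI]
    simp [Ideal.Quotient.eq_zero_iff_mem]
  | succ k ih =>
    have hkl : k < vs.length := hk
    have ih' := ih hkl.le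
    have hW : ∀ u, u ∈ {u | u ∉ vs.take (k + 1)} ↔ u ∈ {u | u ∉ vs.take k} ∧ u ≠ vs[k] := by
      intro u
      rw [Set.mem_ofPred_eq, Set.mem_ofPred_eq, List.take_succ_eq_append_getElem hkl,
        List.mem_append, List.mem_singleton, not_or]
    have hJ := J_erase adj e hW
    intro a
    constructor
    · rintro ⟨c, rfl⟩
      rw [sum_range_succ, hl k hkl]
      obtain ⟨j, hj, hj'⟩ := (ih' (∑ i ∈ range k, c i * l i)).1 ⟨c, rfl⟩
      obtain ⟨t, ht⟩ := Ideal.Quotient.mk_surjective (c k)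
      rw [← hj', ← ht, ← map_mul, ← map_add, mk_mem_IW adj e hI, hJ]
      exact Submodule.add_mem_sup hj (Ideal.mul_mem_left _ _ (Ideal.mem_span_singleton_self _))
    · rintro ⟨g, hg, rfl⟩
      rw [hJ] at hg
      obtain ⟨j, hj, t, ht, rfl⟩ := Submodule.mem_sup.1 hg
      obtain ⟨s, rfl⟩ := Ideal.mem_span_singleton'.1 ht
      obtain ⟨c, hc⟩ := (ih' (Ideal.Quotient.mk I j)).2 ⟨j, hj, rfl⟩
      refine ⟨fun i => if i = k then Ideal.Quotient.mk I s else c i, ?_⟩
      rw [sum_range_succ, hl k hkl, map_add, map_mul, hc]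
      congr 1
      · apply sum_congr rfl
        intro i hi
        simp only
        rw [if_neg (ne_of_lt (mem_range.1 hi))]
      · simp only
        rw [if_pos trivial]

omit [DecidableEq V] [Fintype ι] in
theorem kfilt (adj : V → V → Prop) (e : ι → V → ℚ) {I : Ideal (MvPolynomial V ℚ)}
    (hI : I = J adj e Set.univ) (𝓦 : Set (Set V))
    (H : ∀ W ∈ 𝓦, ∃ vs : List V, (∀ u, u ∈ W ↔ u ∉ vs) ∧
      ∀ k, ∀ h : k < vs.length, ∃ W' ∈ 𝓦, ∀ f : MvPolynomial V ℚ,
        X vs[k] * f ∈ J adj e {u | u ∉ vs.take k} ↔ f ∈ J adj e W') :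
    KFilt (linForms I) {S | ∃ W ∈ 𝓦, S = IW adj e I W} := by
  rintro S ⟨W, hW, rfl⟩
  obtain ⟨vs, hvs, hcol⟩ := H W hW
  let l : ℕ → MvPolynomial V ℚ ⧸ I := fun k =>
    if h : k < vs.length then Ideal.Quotient.mk I (X vs[k]) else 0
  have hl : ∀ k, ∀ h : k < vs.length, l k = Ideal.Quotient.mk I (X vs[k]) := by
    intro k h
    simp only [l]
    rw [dif_pos h]
  have hgen := list_gen adj e hI vs l hl
  have hWs : {u | u ∉ vs.take vs.length} = W := by
    ext u
    rw [List.take_length, Set.mem_ofPred_eq, hvs]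
  refine ⟨vs.length, l, ?_, ?_, ?_⟩
  · intro k hk
    rw [hl k hk]
    exact ⟨_, isHomogeneous_X ℚ _, rfl⟩
  · intro a
    have := hgen vs.length le_rfl a
    rw [hWs] at this
    exact this.symm
  · intro k hk
    obtain ⟨W', hW', hc⟩ := hcol k hk
    refine ⟨_, ⟨W', hW', rfl⟩, fun a => ?_⟩
    rw [hgen k hk.le]
    obtain ⟨f, rfl⟩ := Ideal.Quotient.mk_surjective a
    rw [hl k hk, ← map_mul, mk_mem_IW adj e hI, mk_mem_IW adj e hI, mul_comm, hc]

omit [Fintype V] [DecidableEq V] in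
theorem exists_proj (I : Ideal (MvPolynomial V ℚ))
    (hI : I.IsHomogeneous (homogeneousSubmodule V ℚ)) (k : ℕ) :
    ∃ p : (MvPolynomial V ℚ ⧸ I) →+ (MvPolynomial V ℚ ⧸ I),
      ∀ f, p (Ideal.Quotient.mk I f) = Ideal.Quotient.mk I (homogeneousComponent k f) := by
  let s := Function.surjInv (Ideal.Quotient.mk_surjective (I := I))
  have hs : ∀ a, Ideal.Quotient.mk I (s a) = a := Function.surjInv_eq _
  have key : ∀ f, Ideal.Quotient.mk I (homogeneousComponent k (s (Ideal.Quotient.mk I f))) =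
      Ideal.Quotient.mk I (homogeneousComponent k f) := by
    intro f
    rw [Ideal.Quotient.eq, ← map_sub]
    apply homogeneousComponent_mem_of_mem hI
    rw [← Ideal.Quotient.eq]
    exact hs _
  refine ⟨AddMonoidHom.mk' (fun a => Ideal.Quotient.mk I (homogeneousComponent k (s a))) ?_,
    key⟩
  intro a b
  obtain ⟨f, rfl⟩ := Ideal.Quotient.mk_surjective a
  obtain ⟨g, rfl⟩ := Ideal.Quotient.mk_surjective b
  show Ideal.Quotient.mk I (homogeneousComponent k (s (Ideal.Quotient.mk I f +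
    Ideal.Quotient.mk I g))) = _
  rw [← map_add, key, key, key, map_add, map_add]

omit [DecidableEq V] [Fintype ι] in
/-- the ideal of all variables -/
theorem J_top (adj : V → V → Prop) (e : ι → V → ℚ) (W : Set V)
    (h : ∀ v, (X v : MvPolynomial V ℚ) ∈ J adj e W) :
    J adj e W = Ideal.span (Set.range (X : V → MvPolynomial V ℚ)) := by
  have hX : ∀ v, (X v : MvPolynomial V ℚ) ∈ Ideal.span (Set.range (X : V → MvPolynomial V ℚ)) :=
    fun v => Ideal.subset_span ⟨v, rfl⟩
  apply le_antisymm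
  · unfold J mono
    refine sup_le (Ideal.span_le.2 ?_) (Ideal.span_le.2 ?_)
    · rintro p (⟨u, w, _, rfl⟩ | ⟨u, _, rfl⟩)
      · exact Ideal.mul_mem_left _ _ (hX w)
      · exact hX u
    · rintro p ⟨i, rfl⟩
      exact Ideal.sum_mem _ (fun v _ => Ideal.mul_mem_left _ _ (hX v))
  · rw [Ideal.span_le]
    rintro p ⟨v, rfl⟩
    exact h v

omit [DecidableEq V] [Fintype ι] in
/-- the linear free resolution -/
theorem resolution (adj : V → V → Prop) (e : ι → V → ℚ) {I : Ideal (MvPolynomial V ℚ)}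
    (hI : I = J adj e Set.univ) (𝓦 : Set (Set V))
    (H : ∀ W ∈ 𝓦, ∃ vs : List V, (∀ u, u ∈ W ↔ u ∉ vs) ∧
      ∀ k, ∀ h : k < vs.length, ∃ W' ∈ 𝓦, ∀ f : MvPolynomial V ℚ,
        X vs[k] * f ∈ J adj e {u | u ∉ vs.take k} ↔ f ∈ J adj e W')
    (W0 : Set V) (hW0 : W0 ∈ 𝓦) (hX : ∀ v, (X v : MvPolynomial V ℚ) ∈ J adj e W0) :
    ∃ (b : ℕ → ℕ) (d : ∀ i, Matrix (Fin (b (i + 1))) (Fin (b i)) (MvPolynomial V ℚ ⧸ I)),
      b 0 = 1 ∧ (∀ i p q, d i p q ∈ linForms I) ∧
      (∀ c : Fin (b 0) → MvPolynomial V ℚ ⧸ I,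
        c ∈ LinearMap.range (d 0).vecMulLinear ↔ ∀ q, c q ∈ Ideal.span (linForms I)) ∧
      ∀ i, LinearMap.range (d (i + 1)).vecMulLinear = LinearMap.ker (d i).vecMulLinear := by
  have hIh : I.IsHomogeneous (homogeneousSubmodule V ℚ) := by
    rw [hI]
    exact J_hom adj e _
  obtain ⟨p1, hp1⟩ := exists_proj I hIh 1
  obtain ⟨p2, hp2⟩ := exists_proj I hIh 2
  have hM : ∀ a, a ∈ IW adj e I W0 ↔ a ∈ Ideal.span (linForms I) := by
    intro a
    obtain ⟨f, rfl⟩ := Ideal.Quotient.mk_surjective a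
    rw [mk_mem_IW adj e hI, J_top adj e W0 hX]
    have hspan : Ideal.span (linForms I) =
        (Ideal.span (Set.range (X : V → MvPolynomial V ℚ))).map (Ideal.Quotient.mk I) := by
      apply le_antisymm
      · rw [Ideal.span_le]
        rintro a ⟨g, hg, rfl⟩
        apply Ideal.mem_map_of_mem
        have h1 : g ∈ Ideal.span (X '' (Set.univ : Set V)) := by
          rw [mem_ideal_span_X_image]
          intro m hm
          by_contra hcon
          push Not at hcon
          have hm0 : m = 0 := by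
            ext i
            exact hcon i (Set.mem_univ i)
          have hd := hg (mem_support_iff.1 hm)
          rw [hm0] at hd
          simp at hd
        rwa [Set.image_univ] at h1
      · rw [Ideal.map_span, Ideal.span_le]
        rintro a ⟨p, ⟨v, rfl⟩, rfl⟩
        exact Ideal.subset_span ⟨X v, isHomogeneous_X ℚ v, rfl⟩
    rw [hspan, Ideal.mem_map_iff_of_surjective _ Ideal.Quotient.mk_surjective]
    constructor
    · intro h
      exact ⟨f, h, rfl⟩
    · rintro ⟨g, hg, hgf⟩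
      rw [Ideal.Quotient.eq] at hgf
      have hle : I ≤ Ideal.span (Set.range (X : V → MvPolynomial V ℚ)) := by
        rw [hI, ← J_top adj e W0 hX]
        exact J_mono adj e (Set.subset_univ _)
      have := Ideal.sub_mem _ hg (hle hgf)
      simpa using this
  obtain ⟨b, d, hb, hd1, hd2, hd3⟩ := exists_resolution (linForms I)
    {S | ∃ W ∈ 𝓦, S = IW adj e I W} (kfilt adj e hI 𝓦 H)
    ⟨0, isHomogeneous_zero _ _ _, map_zero _⟩
    (by
      rintro a ⟨f, hf, rfl⟩
      exact ⟨-f, hf.neg, map_neg _ _⟩)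
    p1 p2
    (by
      intro a
      obtain ⟨f, rfl⟩ := Ideal.Quotient.mk_surjective a
      rw [hp1]
      exact ⟨_, homogeneousComponent_isHomogeneous _ _, rfl⟩)
    (by
      rintro a l ⟨g, hg, rfl⟩
      obtain ⟨f, rfl⟩ := Ideal.Quotient.mk_surjective a
      rw [← map_mul, hp2, hp1, ← map_mul, hc_mul f g hg 1])
    (by
      rintro l ⟨g, hg, rfl⟩
      rw [hp1]
      have h1 := (homogeneousComponent_of_mem (m := 1) hg)
      rw [if_pos rfl] at h1
      rw [h1])
    (IW adj e I W0) ⟨W0, hW0, rfl⟩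
  refine ⟨b, d, hb, hd1, fun c => ?_, hd3⟩
  rw [hd2]
  simp only [hM]

end

end Pool.Agent.V11118.KZ
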