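import Pool.Agent.V11118.KZ.Flag

/-!
# The lower bound for the Hilbert function by evaluation at points, and the upper bound
-/

namespace Pool.Agent.V11118.KZ

open MvPolynomial Finset

noncomputable section

attribute [local instance] MvPolynomial.gradedAlgebra

variable {V ι : Type} [Fintype V] [DecidableEq V] [Fintype ι]

omit [DecidableEq V] [Fintype ι] in
theorem JE_zero (adj : V → V → Prop) (e : ι → V → ℚ) (W : Set V) : JE adj e W 0 = ⊥ := by
  rw [Submodule.eq_bot_iff]
  rintro f ⟨hf, h0⟩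
  have hle : J adj e W ≤ RingHom.ker (eval (fun _ : V => (0 : ℚ))) := by
    unfold J mono
    refine sup_le (Ideal.span_le.2 ?_) (Ideal.span_le.2 ?_)
    · rintro p (⟨u, w, _, rfl⟩ | ⟨u, _, rfl⟩)
      · simp [RingHom.mem_ker]
      · simp [RingHom.mem_ker]
    · rintro p ⟨i, rfl⟩
      simp [RingHom.mem_ker, theta]
  have h1 : eval (fun _ : V => (0 : ℚ)) f = 0 := hle hf
  have h2 : f.IsHomogeneous 0 := h0
  rw [← totalDegree_zero_iff_isHomogeneous, totalDegree_eq_zero_iff_eq_C] at h2
  rw [h2] at h1 ⊢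
  rw [eval_C] at h1
  rw [h1, C_0]

omit [DecidableEq V] [Fintype ι] in
theorem qd_zero_le (adj : V → V → Prop) (e : ι → V → ℚ) (W : Set V) : qd adj e W 0 ≤ 1 := by
  unfold qd
  have : Module.finrank ℚ (E V 0) ≤ 1 := by
    have h : E V 0 = Submodule.span ℚ {(1 : MvPolynomial V ℚ)} := by
      rw [show E V 0 = homogeneousSubmodule V ℚ 0 from rfl, homogeneousSubmodule_zero]
      exact Submodule.one_eq_span
    rw [h]
    exact (finrank_span_singleton (one_ne_zero : (1 : MvPolynomial V ℚ) ≠ 0)).le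
  omega

omit [DecidableEq V] [Fintype ι] in
theorem qd_leaf (adj : V → V → Prop) (e : ι → V → ℚ) (W : Set V)
    (h : ∀ v, (X v : MvPolynomial V ℚ) ∈ J adj e W) (k : ℕ) : qd adj e W (k + 1) = 0 := by
  have : JE adj e W (k + 1) = E V (k + 1) := by
    apply le_antisymm inf_le_right
    intro f hf
    refine ⟨?_, hf⟩
    have h1 : f ∈ Ideal.span (X '' (Set.univ : Set V)) := by
      rw [mem_ideal_span_X_image]
      intro m hm
      by_contra hcon
      push Not at hcon
      have hm0 : m = 0 := by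
        ext i
        exact hcon i (Set.mem_univ i)
      have hd := (show f.IsHomogeneous (k + 1) from hf) (mem_support_iff.1 hm)
      rw [hm0] at hd
      simp at hd
    have h2 : Ideal.span (X '' (Set.univ : Set V)) ≤ J adj e W := by
      rw [Ideal.span_le]
      rintro p ⟨v, _, rfl⟩
      exact h v
    exact h2 h1
  unfold qd
  rw [this, Nat.sub_self]

/-- evaluation at finitely many points -/
def ev {T : Type} (pt : T → V → ℚ) : MvPolynomial V ℚ →ₗ[ℚ] (T → ℚ) :=
  LinearMap.pi fun t => (aeval (pt t) : MvPolynomial V ℚ →ₐ[ℚ] ℚ).toLinearMap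

omit [Fintype V] [DecidableEq V] in
theorem ev_apply {T : Type} (pt : T → V → ℚ) (f : MvPolynomial V ℚ) (t : T) :
    ev pt f t = eval (pt t) f := by
  simp [ev]

theorem exists_compl_le {M : Type*} [AddCommGroup M] [Module ℚ M] (A B : Submodule ℚ M)
    (h : A ≤ B) [Module.Finite ℚ B] : ∃ C : Submodule ℚ M, A ⊔ C = B ∧
      Module.finrank ℚ A + Module.finrank ℚ C = Module.finrank ℚ B ∧ Module.Finite ℚ C := by
  obtain ⟨C', hC⟩ := Submodule.exists_isCompl (A.comap B.subtype)
  refine ⟨C'.map B.subtype, ?_, ?_, ?_⟩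
  · have h1 : A = (A.comap B.subtype).map B.subtype := by
      rw [Submodule.map_comap_subtype, inf_eq_right.2 h]
    conv_lhs => rw [h1]
    rw [← Submodule.map_sup, hC.sup_eq_top, Submodule.map_top, Submodule.range_subtype]
  · have h2 := Submodule.finrank_add_eq_of_isCompl hC
    have h3 : Module.finrank ℚ (A.comap B.subtype) = Module.finrank ℚ A :=
      (Submodule.comapSubtypeEquivOfLe h).finrank_eq
    have h4 : Module.finrank ℚ (C'.map B.subtype) = Module.finrank ℚ C' :=
      (Submodule.equivMapOfInjective B.subtype B.injective_subtype C').finrank_eq.symm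
    omega
  · exact Module.Finite.map _ _

/-- the filtration by degree of the space of values -/
def RR {T : Type} (pt : T → V → ℚ) : ℕ → Submodule ℚ (T → ℚ)
  | 0 => ⊥
  | k + 1 => RR pt k ⊔ (E V k).map (ev pt)

omit [DecidableEq V] in
theorem ev_JE {T : Type} (adj : V → V → Prop) (e : ι → V → ℚ) (W : Set V)
    (pt : T → V → ℚ) (c : ι → ℚ) (h1 : ∀ t u w, ¬ adj u w → pt t u * pt t w = 0)
    (h2 : ∀ t v, v ∉ W → pt t v = 0) (h3 : ∀ t i, ∑ v, e i v * pt t v = c i) (k : ℕ) :
    (JE adj e W k).map (ev pt) ≤ RR pt k := by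
  cases k with
  | zero =>
    rw [JE_zero]
    simp
  | succ k =>
    rintro x ⟨f, ⟨hf, hk⟩, rfl⟩
    obtain ⟨g, m, hm, hg, rfl⟩ := J_decomp adj e W k f hf hk
    have hm0 : ev pt m = 0 := by
      funext t
      rw [ev_apply]
      have hle : mono adj W ≤ RingHom.ker (eval (pt t)) := by
        unfold mono
        refine Ideal.span_le.2 ?_
        rintro p (⟨u, w, huw, rfl⟩ | ⟨u, hu, rfl⟩)
        · simp only [SetLike.mem_coe, RingHom.mem_ker, map_mul, eval_X]
          exact h1 t u w huw
        · simp only [SetLike.mem_coe, RingHom.mem_ker, eval_X]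
          exact h2 t u hu
      exact hle hm
    have e1 : ev pt (m + ∑ i, g i * theta e i) = ∑ i, c i • ev pt (g i) := by
      rw [map_add, hm0, zero_add, map_sum]
      apply sum_congr rfl
      intro i _
      funext t
      rw [ev_apply, map_mul, Pi.smul_apply, ev_apply, smul_eq_mul, mul_comm]
      congr 1
      rw [← h3 t i]
      simp [theta]
    rw [e1]
    apply Submodule.sum_mem
    intro i _
    apply Submodule.smul_mem
    exact Submodule.mem_sup_right ⟨g i, hg i, rfl⟩

omit [DecidableEq V] in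
theorem RR_le {T : Type} [Finite T] (adj : V → V → Prop) (e : ι → V → ℚ) (W : Set V)
    (pt : T → V → ℚ) (c : ι → ℚ) (h1 : ∀ t u w, ¬ adj u w → pt t u * pt t w = 0)
    (h2 : ∀ t v, v ∉ W → pt t v = 0) (h3 : ∀ t i, ∑ v, e i v * pt t v = c i) (k : ℕ) :
    Module.finrank ℚ (RR pt k) ≤ ∑ j ∈ range k, qd adj e W j := by
  induction k with
  | zero =>
    rw [show RR pt 0 = ⊥ from rfl]
    simp
  | succ k ih =>
    have := finE (V := V) k
    obtain ⟨C, hC1, hC2, hC3⟩ := exists_compl_le (JE adj e W k) (E V k) inf_le_right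
    have e1 : RR pt (k + 1) = RR pt k ⊔ C.map (ev pt) := by
      show RR pt k ⊔ (E V k).map (ev pt) = _
      rw [← hC1, Submodule.map_sup, ← sup_assoc, sup_eq_left.2 (ev_JE adj e W pt c h1 h2 h3 k)]
    rw [e1, sum_range_succ]
    have h4 := Submodule.finrank_add_le_finrank_add_finrank (RR pt k) (C.map (ev pt))
    have h5 : Module.finrank ℚ (C.map (ev pt)) ≤ Module.finrank ℚ C := Submodule.finrank_map_le _ _
    have h6 := qd_add adj e W k
    omega

omit [DecidableEq V] in
/-- the lower bound -/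
theorem card_le {T : Type} [Fintype T] (adj : V → V → Prop) (e : ι → V → ℚ)
    (W : Set V) (pt : T → V → ℚ) (c : ι → ℚ)
    (h1 : ∀ t u w, ¬ adj u w → pt t u * pt t w = 0)
    (h2 : ∀ t v, v ∉ W → pt t v = 0) (h3 : ∀ t i, ∑ v, e i v * pt t v = c i) (D : ℕ)
    (s : T → Finset V) (hs : ∀ t, (s t).card = D) (hs1 : ∀ t, ∀ v ∈ s t, pt t v ≠ 0)
    (hs2 : ∀ t t', t ≠ t' → ∃ v ∈ s t, pt t' v = 0) :
    Fintype.card T ≤ ∑ j ∈ range (D + 1), qd adj e W j := by
  classical
  have htop : RR pt (D + 1) = ⊤ := by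
    rw [Submodule.eq_top_iff']
    intro x
    have hx : x = ∑ t, (x t * (∏ v ∈ s t, pt t v)⁻¹) • ev pt (∏ v ∈ s t, X v) := by
      funext t'
      rw [Finset.sum_apply, Finset.sum_eq_single t']
      · rw [Pi.smul_apply, ev_apply, map_prod, smul_eq_mul, mul_assoc]
        simp only [eval_X]
        rw [inv_mul_cancel₀, mul_one]
        exact Finset.prod_ne_zero_iff.2 (hs1 t')
      · intro t _ ht
        rw [Pi.smul_apply, ev_apply, map_prod]
        obtain ⟨v, hv, h0⟩ := hs2 t t' ht
        simp only [eval_X]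
        rw [Finset.prod_eq_zero hv h0, smul_zero]
      · intro h
        exact absurd (Finset.mem_univ _) h
    rw [hx]
    apply Submodule.sum_mem
    intro t _
    apply Submodule.smul_mem
    refine Submodule.mem_sup_right ⟨_, ?_, rfl⟩
    have h := IsHomogeneous.prod (s t) (fun v => (X v : MvPolynomial V ℚ)) (fun _ => 1)
      (fun v _ => isHomogeneous_X ℚ v)
    simp only [Finset.sum_const, hs, smul_eq_mul, mul_one] at h
    exact h
  have h4 := RR_le adj e W pt c h1 h2 h3 (D + 1)
  rw [htop, finrank_top, Module.finrank_fintype_fun_eq_card] at h4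
  exact h4

/-- sets with a decomposition, and the resulting bound for the Hilbert function -/
inductive Good (adj : V → V → Prop) (e : ι → V → ℚ) : Set V → (ℕ → ℕ) → Prop
  | leaf (W : Set V) (h : ∀ v, (X v : MvPolynomial V ℚ) ∈ J adj e W) :
      Good adj e W (fun k => if k = 0 then 1 else 0)
  | node (W W1 W2 : Set V) (v : V) (a b : ℕ → ℕ) (h1 : ∀ u, u ∈ W1 ↔ u ∈ W ∧ u ≠ v)
      (h2 : ∀ u, u ∈ W → adj v u → u ∈ W2) (hg1 : Good adj e W1 a) (hg2 : Good adj e W2 b) :
      Good adj e W (fun k => a k + (if k = 0 then 0 else b (k - 1)))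

omit [DecidableEq V] [Fintype ι] in
theorem Good.le {adj : V → V → Prop} {e : ι → V → ℚ} {W : Set V} {h : ℕ → ℕ}
    (hg : Good adj e W h) : 1 ≤ h 0 ∧ ∀ k, qd adj e W k ≤ h k := by
  induction hg with
  | leaf W hW =>
    refine ⟨le_rfl, fun k => ?_⟩
    cases k with
    | zero => exact qd_zero_le adj e W
    | succ k => rw [qd_leaf adj e W hW k]; exact Nat.zero_le _
  | node W W1 W2 v a b h1 h2 _ _ ih1 ih2 =>
    refine ⟨by simpa using ih1.1, fun k => ?_⟩
    cases k with
    | zero =>
      have := qd_zero_le adj e W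
      have := ih1.1
      simp only [if_true]
      omega
    | succ k =>
      have h3 := qd_le adj e h1 h2 k
      have h4 := ih1.2 (k + 1)
      have h5 := ih2.2 k
      simp only [Nat.succ_ne_zero, if_false, Nat.add_sub_cancel]
      omega

omit [DecidableEq V] [Fintype ι] in
theorem qd_eq {adj : V → V → Prop} {e : ι → V → ℚ} {W : Set V} {h : ℕ → ℕ}
    (hg : Good adj e W h) (D : ℕ) (hD : ∀ k, D ≤ k → h k = 0)
    (hl : ∑ k ∈ range D, h k ≤ ∑ k ∈ range D, qd adj e W k) (k : ℕ) : qd adj e W k = h k := by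
  have h1 := hg.le.2
  rcases lt_or_ge k D with hk | hk
  · by_contra hne
    have hlt : qd adj e W k < h k := lt_of_le_of_ne (h1 k) hne
    have := Finset.sum_lt_sum (fun i (_ : i ∈ range D) => h1 i) ⟨k, mem_range.2 hk, hlt⟩
    omega
  · have := h1 k
    rw [hD k hk] at this ⊢
    omega

end

end Pool.Agent.V11118.KZ
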