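import Pool.Agent.V11118.KZ.Chk
import Pool.Agent.V11118.KZ.Kos

/-!
# Assembly: Hilbert function and the linear resolution of the explicit ring
-/

namespace Pool.Agent.V11118.KZ.Data

open MvPolynomial Finset Pool.Agent.V11118.KZ

noncomputable section

/-- compatibility of two vertices -/
def adj (u v : Fin 18) : Prop := adjB (gm u) (gm v) = true

/-- incidence coefficients -/
def ee (i : Fin 7) (v : Fin 18) : ℚ := if (gm v).testBit i then 1 else 0

/-- the set of vertices of a mask -/
def S (m : ℕ) : Set (Fin 18) := {v | m.testBit v = true}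

/-- the function of a list -/
def hf (h : List ℕ) (k : ℕ) : ℕ := h.getD k 0

theorem mem_S (m : ℕ) (v : Fin 18) : v ∈ S m ↔ m.testBit v = true := Iff.rfl

theorem S_xor {m v : ℕ} (hv : v < 18) (hm : m.testBit v = true) (u : Fin 18) :
    u ∈ S (m ^^^ 2 ^ v) ↔ u ∈ S m ∧ u ≠ ⟨v, hv⟩ := by
  rw [mem_S, mem_S, Nat.testBit_xor, Nat.testBit_two_pow]
  by_cases h : v = u
  · subst h
    simp [hm]
  · have : u ≠ ⟨v, hv⟩ := fun h' => h (by rw [h'])
    simp [h, this]

theorem S_and {m v : ℕ} (hv : v < 18) (u : Fin 18) (hu : u ∈ S m) (ha : adj ⟨v, hv⟩ u) :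
    u ∈ S (m &&& stm v) := by
  rw [mem_S] at hu ⊢
  rw [Nat.testBit_and, hu, chk_st ⟨v, hv⟩ u, Bool.true_and]
  exact ha

theorem hf_addS (a b : List ℕ) (k : ℕ) : hf (addS a b) k = hf a k + hf b k := by
  induction a generalizing b k with
  | nil => simp [addS, hf]
  | cons x a ih =>
    cases b with
    | nil => simp [addS, hf]
    | cons y b =>
      cases k with
      | zero => simp [addS, hf]
      | succ k =>
        have := ih b k
        simpa [addS, hf] using this

theorem hf_cons (b : List ℕ) (k : ℕ) : hf (0 :: b) k = if k = 0 then 0 else hf b (k - 1) := by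
  cases k with
  | zero => simp [hf]
  | succ k => simp [hf]

theorem sum_hf (l : List ℕ) (n : ℕ) (h : l.length ≤ n) : ∑ k ∈ range n, hf l k = l.sum := by
  induction l generalizing n with
  | nil => simp [hf]
  | cons x l ih =>
    cases n with
    | zero => simp at h
    | succ n =>
      rw [sum_range_succ', List.sum_cons, ← ih n (by simpa using h), add_comm]
      rfl

theorem FL_mem (t : ℕ) (h : t < 161) : FL.getD t [] ∈ FL := by
  rw [List.getD_eq_getElem _ _ (by rw [chk_len.2.1]; exact h)]
  exact List.getElem_mem _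

theorem TL_mem (c : ℕ) (h : c < 416) : tE c ∈ TL := by
  unfold tE
  rw [List.getD_eq_getElem _ _ (by rw [chk_len.1]; exact h)]
  exact List.getElem_mem _

theorem leaf_ok (t : List (ℕ × ℕ × ℕ)) (ht : t ∈ FL) (v : Fin 18) :
    (X v : MvPolynomial (Fin 18) ℚ) ∈ J adj ee (S (mkF t)) := by
  by_cases hv : v ∈ S (mkF t)
  · obtain ⟨x, hx, hxv⟩ := chk_F5 t ht v hv
    obtain ⟨hi, hj, hu⟩ := chk_F6 t ht x hx
    -- the difference of two linear forms
    let e' : Fin 18 → ℚ := fun u => if (gm u).testBit x.2.2 then 1 else 0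
    have hθ' : (∑ u, C (e' u) * X u : MvPolynomial (Fin 18) ℚ) ∈ J adj ee (S (mkF t)) := by
      by_cases h7 : x.2.2 < 7
      · have : (∑ u, C (e' u) * X u : MvPolynomial (Fin 18) ℚ) = theta ee ⟨x.2.2, h7⟩ := rfl
        rw [this]
        exact Ideal.mem_sup_right (Ideal.subset_span ⟨_, rfl⟩)
      · have h7' : x.2.2 = 7 := by omega
        have : (∑ u, C (e' u) * X u : MvPolynomial (Fin 18) ℚ) = 0 := by
          apply sum_eq_zero
          intro u _
          simp only [e', h7', chk_g7 u]
          simp
        rw [this]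
        exact Ideal.zero_mem _
    have hθ : theta ee ⟨x.2.1, hi⟩ ∈ J adj ee (S (mkF t)) :=
      Ideal.mem_sup_right (Ideal.subset_span ⟨_, rfl⟩)
    have hdiff := Ideal.sub_mem _ hθ hθ'
    have key : (X v : MvPolynomial (Fin 18) ℚ) = (theta ee ⟨x.2.1, hi⟩ - ∑ u, C (e' u) * X u) -
        ∑ u, C (ee ⟨x.2.1, hi⟩ u - e' u - (if u = v then 1 else 0)) * X u := by
      unfold theta
      rw [← sum_sub_distrib, ← sum_sub_distrib]
      rw [Finset.sum_eq_single v]
      · rw [if_pos rfl]
        simp only [map_sub, C_1]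
        ring
      · intro u _ huv
        rw [if_neg huv]
        simp only [map_sub, map_zero]
        ring
      · intro h
        exact absurd (Finset.mem_univ v) h
    rw [key]
    refine Ideal.sub_mem _ hdiff (Ideal.sum_mem _ ?_)
    intro u _
    by_cases huS : u ∈ S (mkF t)
    · have h1 := hu u huS
      have h2 : ee ⟨x.2.1, hi⟩ u - e' u - (if u = v then 1 else 0) = 0 := by
        have e1 : ee ⟨x.2.1, hi⟩ u = (((gm u).testBit x.2.1).toNat : ℚ) := by
          simp only [ee]
          cases (gm u).testBit x.2.1 <;> simp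
        have e2 : e' u = (((gm u).testBit x.2.2).toNat : ℚ) := by
          simp only [e']
          cases (gm u).testBit x.2.2 <;> simp
        rw [e1, e2, h1]
        have h3 : (x.1 = (u : ℕ)) ↔ u = v := by
          rw [hxv]
          constructor
          · intro h
            exact (Fin.ext h).symm
          · intro h
            rw [h]
        simp only [h3]
        split_ifs <;> push_cast <;> ring
      rw [h2, C_0, zero_mul]
      exact Ideal.zero_mem _
    · exact Ideal.mul_mem_left _ _ (X_mem_J adj ee huS)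
  · exact X_mem_J adj ee hv

theorem good_ent (c : ℕ) (hc : c < 416) :
    Good adj ee (S (tE c).1) (hf (tE c).2.2.2.2) := by
  induction c using Nat.strong_induction_on with
  | _ c ih =>
    have h := chk_T c hc
    unfold chkT at h
    simp only at h
    by_cases hv : (tE c).2.1 = 18
    · rw [if_pos hv] at h
      simp only [Bool.and_eq_true, decide_eq_true_eq, beq_iff_eq] at h
      obtain ⟨⟨h1, h2⟩, h3⟩ := h
      have := Good.leaf (adj := adj) (e := ee) (S (tE c).1) (fun v => by
        rw [← h2]
        exact leaf_ok _ (FL_mem _ h1) v)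
      rw [h3]
      convert this using 2 with k
      cases k with
      | zero => rfl
      | succ k => simp [hf]
    · rw [if_neg hv] at h
      simp only [Bool.and_eq_true, decide_eq_true_eq, beq_iff_eq] at h
      obtain ⟨⟨⟨⟨⟨⟨h1, h2⟩, h3⟩, h4⟩, h5⟩, h6⟩, h7⟩ := h
      have g1 := ih _ h2 (by omega)
      have g2 := ih _ h3 (by omega)
      rw [h5] at g1
      rw [h6] at g2
      have := Good.node (S (tE c).1) _ _ ⟨(tE c).2.1, h1⟩ _ _ (S_xor h1 h4)
        (S_and h1) g1 g2
      rw [h7]
      convert this using 2 with k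
      rw [hf_addS, hf_cons]

theorem lower (c : ℕ) (hc : c < 416) :
    (tE c).2.2.2.2.sum ≤ ∑ k ∈ range 8, qd adj ee (S (tE c).1) k := by
  let T := {t : Fin 161 // mkF (FL.getD t []) &&& (tE c).1 = mkF (FL.getD t [])}
  have hcard : Fintype.card T = (tE c).2.2.2.2.sum := by
    rw [← chk_cnt c hc, Fintype.card_subtype]
    rfl
  rw [← hcard]
  have hF : ∀ t : T, FL.getD t.1 [] ∈ FL := fun t => FL_mem _ t.1.2
  refine card_le adj ee (S (tE c).1) (fun (t : T) v => (pv (FL.getD t.1 []) v : ℚ))
    (fun i => (cI i : ℚ)) ?_ ?_ ?_ 7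
    (fun t => Finset.univ.filter fun v : Fin 18 => (mkF (FL.getD t.1 [])).testBit v = true)
    ?_ ?_ ?_
  · intro t u w huw
    by_contra hne
    have hu : (mkF (FL.getD t.1 [])).testBit u = true := by
      rw [chk_F1 _ (hF t)]
      intro h
      apply hne
      simp only [h]
      simp
    have hw : (mkF (FL.getD t.1 [])).testBit w = true := by
      rw [chk_F1 _ (hF t)]
      intro h
      apply hne
      simp only [h]
      simp
    have h3 := chk_F3 _ (hF t) u hu
    have h4 : (mkF (FL.getD t.1 []) &&& stm u).testBit w = true := by rw [h3, hw]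
    rw [Nat.testBit_and, Bool.and_eq_true, chk_st] at h4
    exact huw h4.2
  · intro t v hv
    have h1 : (mkF (FL.getD t.1 [])).testBit v = false := by
      by_contra hcon
      rw [Bool.not_eq_false] at hcon
      apply hv
      rw [mem_S]
      have h2 := t.2
      rw [← h2, Nat.testBit_and, Bool.and_eq_true] at hcon
      exact hcon.2
    have h5 := chk_F1 _ (hF t) v
    rw [h1] at h5
    have h6 : pv (FL.getD t.1 []) v = 0 := by
      by_contra hne
      exact absurd (h5.2 hne) (by simp)
    simp only [h6]
    simp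
  · intro t i
    have h := chk_F2 _ (hF t) i
    have h2 : ∑ v : Fin 18, (if (gm v).testBit i then pv (FL.getD t.1 []) v else 0) = cI i := by
      rw [← h]
      rfl
    rw [← h2]
    push_cast
    apply sum_congr rfl
    intro v _
    simp only [ee]
    split_ifs <;> simp
  · intro t
    have h := chk_F4 _ (hF t)
    rw [← h]
    rfl
  · intro t v hv
    rw [Finset.mem_filter] at hv
    have := (chk_F1 _ (hF t) v).1 hv.2
    exact_mod_cast this
  · intro t t' htt
    by_contra hcon
    push Not at hcon
    apply htt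
    -- the supports are equal
    let s1 := Finset.univ.filter fun v : Fin 18 => (mkF (FL.getD t.1 [])).testBit v = true
    let s2 := Finset.univ.filter fun v : Fin 18 => (mkF (FL.getD t'.1 [])).testBit v = true
    have hsub : s1 ⊆ s2 := by
      intro v hv
      have h1 := hcon v hv
      rw [Finset.mem_filter]
      refine ⟨Finset.mem_univ v, ?_⟩
      rw [chk_F1 _ (hF t')]
      intro h0
      apply h1
      rw [h0]
      simp
    have hc1 : s1.card = 7 := by
      rw [← chk_F4 _ (hF t)]
      rfl
    have hc2 : s2.card = 7 := by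
      rw [← chk_F4 _ (hF t')]
      rfl
    have heq : s1 = s2 := Finset.eq_of_subset_of_card_le hsub (by omega)
    have hm : mkF (FL.getD t.1 []) = mkF (FL.getD t'.1 []) := by
      apply Nat.eq_of_testBit_eq
      intro k
      rcases lt_or_ge k 18 with hk | hk
      · have : (⟨k, hk⟩ : Fin 18) ∈ s1 ↔ (⟨k, hk⟩ : Fin 18) ∈ s2 := by rw [heq]
        simp only [s1, s2, Finset.mem_filter, Finset.mem_univ, true_and] at this
        cases h1 : (mkF (FL.getD t.1 [])).testBit k <;>
          cases h2 : (mkF (FL.getD t'.1 [])).testBit k <;> simp_all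
      · have hlt : ∀ t ∈ FL, mkF t < 2 ^ 18 := by decide +kernel
        have h1 : (mkF (FL.getD t.1 [])).testBit k = false :=
          Nat.testBit_lt_two_pow (lt_of_lt_of_le (hlt _ (hF t)) (Nat.pow_le_pow_right (by norm_num) hk))
        have h2 : (mkF (FL.getD t'.1 [])).testBit k = false :=
          Nat.testBit_lt_two_pow (lt_of_lt_of_le (hlt _ (hF t')) (Nat.pow_le_pow_right (by norm_num) hk))
        rw [h1, h2]
    have hnd := chk_F7
    have hlen : (FL.map mkF).length = 161 := by
      rw [List.length_map]
      exact chk_len.2.1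
    have e1 : ∀ t : Fin 161, mkF (FL.getD t []) = (FL.map mkF)[t.1]'(by rw [hlen]; exact t.2) := by
      intro t
      rw [List.getElem_map, List.getD_eq_getElem _ _ (by rw [chk_len.2.1]; exact t.2)]
    rw [e1, e1] at hm
    have := (List.Nodup.getElem_inj_iff hnd).1 hm
    exact Subtype.ext (Fin.ext this)

theorem qd_ent (c : ℕ) (hc : c < 416) (k : ℕ) :
    qd adj ee (S (tE c).1) k = hf (tE c).2.2.2.2 k := by
  have hlen := chk_hlen _ (TL_mem c hc)
  refine qd_eq (good_ent c hc) 8 ?_ ?_ k
  · intro k hk
    unfold hf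
    exact List.getD_eq_default _ _ (by omega)
  · rw [sum_hf _ 8 (by omega)]
    exact lower c hc

end

end Pool.Agent.V11118.KZ.Data
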